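import Pool.Agent.H589R3.DT.Game

/-!
# The host game with several scales (helper631)

The vertices of the host are indexed by a scale `j`, a vertex of the base graph, an element of its
cloud and a copy; at the scale `j` there are `β ^ j` copies of each vertex, so that the larger
scales dominate the smaller ones.
-/

open scoped Classical
open Finset

namespace Pool.Agent.N631.FT

open H630VC (Prog marked)
open H589DT

/-- a geometric sum -/
theorem geo (γ : ℕ) (hγ : 2 ≤ γ) (k : ℕ) : γ * ∑ i ∈ range k, γ ^ i ≤ 2 * γ ^ k := by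
  induction k with
  | zero => simp
  | succ k ih =>
    rw [sum_range_succ]
    have h : 2 * γ ^ k ≤ γ ^ (k + 1) := by
      rw [pow_succ, mul_comm]
      exact Nat.mul_le_mul_left _ hγ
    calc γ * (∑ i ∈ range k, γ ^ i + γ ^ k) = γ * ∑ i ∈ range k, γ ^ i + γ ^ (k + 1) := by ring
      _ ≤ 2 * γ ^ k + γ ^ (k + 1) := Nat.add_le_add_right ih _
      _ ≤ γ ^ (k + 1) + γ ^ (k + 1) := Nat.add_le_add_right h _
      _ = _ := by ring

section

variable {n D p d m N : ℕ} [NeZero p] {T m0 : ℕ} {Z : Type}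

/-- the union of the scales -/
noncomputable def tot {B : Finset (Fin n)} (enc : Fin T × Fin m0 × Z ↪ Fin m)
    (Cp : Fin T → Finset Z) (H : Fin T → Finset (EE D B × Fin m0 × Fin m0)) :
    Finset (EE D B × Fin m × Fin m) :=
  univ.filter fun c => ∃ (j : Fin T) (a a' : Fin m0) (z z' : Z), z ∈ Cp j ∧ z' ∈ Cp j ∧
    (c.1, a, a') ∈ H j ∧ c.2.1 = enc (j, a, z) ∧ c.2.2 = enc (j, a', z')

variable {φ : Fin n → Fin D → Fin n} {B : Finset (Fin n)} {s : Fin n → Fin D → ZMod p}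
  {ιV ιW : Option (Fin n × Fin m) ↪ Fin N} {enc : Fin T × Fin m0 × Z ↪ Fin m}
  {Cp : Fin T → Finset Z}

theorem mem_tot {H : Fin T → Finset (EE D B × Fin m0 × Fin m0)} {c : EE D B × Fin m × Fin m} :
    c ∈ tot enc Cp H ↔ ∃ (j : Fin T) (a a' : Fin m0) (z z' : Z), z ∈ Cp j ∧ z' ∈ Cp j ∧
      (c.1, a, a') ∈ H j ∧ c.2.1 = enc (j, a, z) ∧ c.2.2 = enc (j, a', z') := by
  simp [tot]

theorem tot_mono {H H' : Fin T → Finset (EE D B × Fin m0 × Fin m0)} (h : ∀ j, H j ⊆ H' j) :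
    tot enc Cp H ⊆ tot enc Cp H' := by
  intro c hc
  obtain ⟨j, a, a', z, z', h1, h2, h3, h4, h5⟩ := mem_tot.1 hc
  exact mem_tot.2 ⟨j, a, a', z, z', h1, h2, h j h3, h4, h5⟩

/-- larger hosts have larger inputs -/
theorem host_mono (hφ : ∀ w i j, w ∉ B → φ w i = φ w j → i = j)
    {H H' : Finset (EE D B × Fin m × Fin m)} (h : H ⊆ H') :
    ∀ g ∈ dInputs (Fin N) (Fin N) d p,
      g (hostInst φ B s ιV ιW d H) ≤ g (hostInst φ B s ιV ιW d H') := by
  intro g hg
  rcases hostInputs (s := s) (ιV := ιV) (ιW := ιW) (d := d) hφ g hg with ⟨c, hc⟩ | ⟨c, hc⟩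
  · rw [hc, hc]
  · rw [hc, hc]
    by_cases h1 : c ∈ H
    · rw [if_pos h1, if_pos (h h1)]
    · rw [if_neg h1]
      split_ifs
      · exact zero_le_one
      · exact le_rfl

/-- the inputs are host inputs of each scale -/
theorem hostInputs_scale (hφ : ∀ w i j, w ∉ B → φ w i = φ w j → i = j)
    (P : Fin T → Finset (EE D B × Fin m0 × Fin m0)) (k : Fin T) :
    HostInputs (fun H : Finset (EE D B × Fin m0 × Fin m0) =>
      hostInst φ B s ιV ιW d (tot enc Cp (Function.update P k H)))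
      (dInputs (Fin N) (Fin N) d p) := by
  intro g hg
  rcases hostInputs (s := s) (ιV := ιV) (ιW := ιW) (d := d) hφ g hg with ⟨c, hc⟩ | ⟨c, hc⟩
  · exact Or.inl ⟨c, fun H => hc _⟩
  · by_cases h : ∃ (a a' : Fin m0) (z z' : Z), z ∈ Cp k ∧ z' ∈ Cp k ∧ c.2.1 = enc (k, a, z) ∧
      c.2.2 = enc (k, a', z')
    · obtain ⟨a, a', z, z', h1, h2, h3, h4⟩ := h
      refine Or.inr ⟨(c.1, a, a'), fun H => ?_⟩
      have e : c ∈ tot enc Cp (Function.update P k H) ↔ (c.1, a, a') ∈ H := by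
        constructor
        · intro hc
          obtain ⟨j, b, b', y, y', g1, g2, g3, g4, g5⟩ := mem_tot.1 hc
          have e1 := enc.injective (h3.symm.trans g4)
          have e2 := enc.injective (h4.symm.trans g5)
          simp only [Prod.mk.injEq] at e1 e2
          obtain ⟨rfl, rfl, rfl⟩ := e1
          obtain ⟨-, rfl, rfl⟩ := e2
          rwa [Function.update_self] at g3
        · intro hc
          exact mem_tot.2 ⟨k, a, a', z, z', h1, h2, by rwa [Function.update_self], h3, h4⟩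
      show g (hostInst φ B s ιV ιW d (tot enc Cp (Function.update P k H))) = _
      rw [hc]
      by_cases h5 : (c.1, a, a') ∈ H
      · rw [if_pos h5, if_pos (e.2 h5)]
      · rw [if_neg h5, if_neg fun h6 => h5 (e.1 h6)]
    · refine Or.inl ⟨if c ∈ tot enc Cp P then 1 else 0, fun H => ?_⟩
      have e : c ∈ tot enc Cp (Function.update P k H) ↔ c ∈ tot enc Cp P := by
        constructor
        · intro hc
          obtain ⟨j, b, b', y, y', g1, g2, g3, g4, g5⟩ := mem_tot.1 hc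
          have hjk : j ≠ k := by
            rintro rfl
            exact h ⟨b, b', y, y', g1, g2, g4, g5⟩
          rw [Function.update_of_ne hjk] at g3
          exact mem_tot.2 ⟨j, b, b', y, y', g1, g2, g3, g4, g5⟩
        · intro hc
          obtain ⟨j, b, b', y, y', g1, g2, g3, g4, g5⟩ := mem_tot.1 hc
          have hjk : j ≠ k := by
            rintro rfl
            exact h ⟨b, b', y, y', g1, g2, g4, g5⟩
          exact mem_tot.2 ⟨j, b, b', y, y', g1, g2, by rwa [Function.update_of_ne hjk], g4, g5⟩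
      show g (hostInst φ B s ιV ιW d (tot enc Cp (Function.update P k H))) = _
      rw [hc]
      by_cases h5 : c ∈ tot enc Cp P
      · rw [if_pos h5, if_pos (e.2 h5)]
      · rw [if_neg h5, if_neg fun h6 => h5 (e.1 h6)]

/-- subgames of satisfiable host games are satisfiable -/
theorem yes_sub {H H' : Finset (EE D B × Fin m × Fin m)} (h : H ⊆ H')
    (hy : DYes (hostInst φ B s ιV ιW d H')) : DYes (hostInst φ B s ιV ιW d H) := by
  obtain ⟨-, A, C, hAC⟩ := hy
  refine ⟨⟨ιV none, ιW none, Or.inl ⟨rfl, rfl⟩⟩, A, C, ?_⟩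
  intro v w hvw
  refine hAC v w ?_
  rcases hvw with h1 | ⟨c, hc, h1⟩
  · exact Or.inl h1
  · exact Or.inr ⟨c, h hc, h1⟩

/-- unions of scales without conflicts have value one -/
theorem scales_yes [NeZero d] (hφ : ∀ w i j, w ∉ B → φ w i = φ w j → i = j)
    (P : Fin T → Finset (EE D B × Fin m0 × Fin m0))
    (Tj : Fin T → Finset (((Fin n ⊕ Fin n) × Fin m0) × (ZMod p × Fin d)))
    (hT0 : ∀ j, NoConflict (Tj j)) (hP : ∀ j, P j ⊆ hT (gameGraph φ B s) (Tj j)) :
    DYes (hostInst φ B s ιV ιW d (tot enc Cp P)) := by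
  set T' : Finset (((Fin n ⊕ Fin n) × Fin m) × (ZMod p × Fin d)) :=
    univ.filter fun q => ∃ (j : Fin T) (a : Fin m0) (z : Z), q.1.2 = enc (j, a, z) ∧
      ((q.1.1, a), q.2) ∈ Tj j with hT'
  have hmem : ∀ q, q ∈ T' ↔ ∃ (j : Fin T) (a : Fin m0) (z : Z), q.1.2 = enc (j, a, z) ∧
      ((q.1.1, a), q.2) ∈ Tj j := by
    intro q
    rw [hT', mem_filter]
    simp only [mem_univ, true_and]
  have hNC : NoConflict T' := by
    intro q σ τ h1 h2
    obtain ⟨j, a, z, g1, g2⟩ := (hmem _).1 h1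
    obtain ⟨j', a', z', g3, g4⟩ := (hmem _).1 h2
    have e := enc.injective (g1.symm.trans g3)
    simp only [Prod.mk.injEq] at e
    obtain ⟨rfl, rfl, rfl⟩ := e
    exact hT0 j _ _ _ g2 g4
  refine yes_sub ?_ (host_yes (s := s) (ιV := ιV) (ιW := ιW) hφ T' hNC)
  intro c hc
  obtain ⟨j, a, a', z, z', h1, h2, h3, h4, h5⟩ := mem_tot.1 hc
  obtain ⟨σ, τ, g1, g2, g3⟩ := mem_hT.1 (hP j h3)
  refine mem_hT.2 ⟨σ, τ, ?_, ?_, g3⟩
  · exact (hmem _).2 ⟨j, a, z, h4, g1⟩
  · exact (hmem _).2 ⟨j, a', z', h5, g2⟩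

/-- if the last scale is a copy of the game graph then the value is small -/
theorem scales_no (hφ : ∀ w i j, w ∉ B → φ w i = φ w j → i = j) (ε : ℝ) (hε : 0 < ε) (K β : ℕ)
    (hs : ∀ (x : Fin n → ZMod p × Fin d) (y : Fin n → ZMod p),
      (univ.filter fun e : Fin n × Fin D => e.1 ∉ B ∧
        (x e.1).1 - ((e.2 : ℕ) : ZMod p) * (((x e.1).2 : ℕ) : ZMod p) + s e.1 e.2
          = y (φ e.1 e.2)).card < K)
    (hCp : ∀ j, (Cp j).card = β ^ (j : ℕ)) (hβ2 : 2 ≤ β)
    (hβ : 8 * ((m0 : ℝ) * m0) ≤ ε * (β : ℝ) ^ 2)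
    (hK : (2 : ℝ) + K ≤ ε / 2 * Fintype.card (EE D B))
    (P : Fin T → Finset (EE D B × Fin m0 × Fin m0)) (k : Fin T)
    (x : Fin n ⊕ Fin n → Fin m0) (hPk : P k = hx (gameGraph (d := d) φ B s) x)
    (hgt : ∀ j, k < j → P j = ∅) :
    DNo ε (hostInst φ B s ιV ιW d (tot enc Cp P)) := by
  intro A C
  set I := hostInst φ B s ιV ιW d (tot enc Cp P) with hI
  -- many edges
  have hE : (β ^ 2) ^ (k : ℕ) * Fintype.card (EE D B) ≤
      (univ.filter fun e : Fin N × Fin N => I.adj e.1 e.2).card := by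
    have h1 : ((univ : Finset (EE D B)) ×ˢ Cp k ×ˢ Cp k).card =
        (β ^ 2) ^ (k : ℕ) * Fintype.card (EE D B) := by
      rw [card_product, card_product, hCp, card_univ, ← pow_mul, mul_comm 2, pow_mul, pow_two]
      ring
    rw [← h1]
    refine card_le_card_of_injOn (fun q => (ιV (some (φ q.1.1.1 q.1.1.2,
      enc (k, x (Sum.inl (φ q.1.1.1 q.1.1.2)), q.2.1))),
      ιW (some (q.1.1.1, enc (k, x (Sum.inr q.1.1.1), q.2.2))))) ?_ ?_
    · rintro ⟨e, z, z'⟩ hq
      have hq' := mem_product.1 (mem_coe.1 hq)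
      have hq2 := mem_product.1 hq'.2
      refine mem_coe.2 (mem_filter.2 ⟨mem_univ _, Or.inr ⟨(e, enc (k, x (Sum.inl (φ e.1.1 e.1.2)), z),
        enc (k, x (Sum.inr e.1.1), z')), ?_, rfl, rfl⟩⟩)
      refine mem_tot.2 ⟨k, x (Sum.inl (φ e.1.1 e.1.2)), x (Sum.inr e.1.1), z, z', hq2.1, hq2.2, ?_,
        rfl, rfl⟩
      rw [hPk]
      exact mem_hx.2 ⟨rfl, rfl⟩
    · rintro ⟨⟨⟨w1, i1⟩, hw1⟩, z1, z1'⟩ _ ⟨⟨⟨w2, i2⟩, hw2⟩, z2, z2'⟩ _ h
      simp only [Prod.mk.injEq, EmbeddingLike.apply_eq_iff_eq, Option.some.injEq] at h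
      obtain ⟨⟨h1, -, -, rfl⟩, rfl, -, -, rfl⟩ := h
      have := hφ w1 i1 i2 hw1 h1
      subst this
      rfl
  -- few satisfied edges
  let xx : Z → Fin n → ZMod p × Fin d := fun z' w =>
    (eW p d).symm (C (ιW (some (w, enc (k, x (Sum.inr w), z')))))
  let yy : Z → Fin n → ZMod p := fun z v =>
    (eV p).symm (A (ιV (some (v, enc (k, x (Sum.inl v), z)))))
  have hS : (univ.filter fun e : Fin N × Fin N => I.adj e.1 e.2 ∧
      I.map e.1 e.2 (C e.2) = A e.1).card ≤
      1 + ((∑ i ∈ range k, (β ^ 2) ^ i) * (m0 * m0 * Fintype.card (EE D B)) +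
        (β ^ 2) ^ (k : ℕ) * K) := by
    have h2 : (univ.filter fun e : Fin N × Fin N => I.adj e.1 e.2 ∧
        I.map e.1 e.2 (C e.2) = A e.1) ⊆ {(ιV none, ιW none)} ∪
        (((univ.filter fun j : Fin T => j < k).biUnion fun j =>
          (Cp j ×ˢ Cp j ×ˢ (univ : Finset (Fin m0)) ×ˢ (univ : Finset (Fin m0)) ×ˢ
            (univ : Finset (EE D B))).image
            fun q => (ιV (some (φ q.2.2.2.2.1.1 q.2.2.2.2.1.2, enc (j, q.2.2.1, q.1))),
              ιW (some (q.2.2.2.2.1.1, enc (j, q.2.2.2.1, q.2.1))))) ∪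
        ((Cp k ×ˢ Cp k).biUnion fun zz =>
          (univ.filter fun e : Fin n × Fin D => e.1 ∉ B ∧
            (xx zz.2 e.1).1 - ((e.2 : ℕ) : ZMod p) * (((xx zz.2 e.1).2 : ℕ) : ZMod p) + s e.1 e.2
              = yy zz.1 (φ e.1 e.2)).image fun e =>
              (ιV (some (φ e.1 e.2, enc (k, x (Sum.inl (φ e.1 e.2)), zz.1))),
                ιW (some (e.1, enc (k, x (Sum.inr e.1), zz.2)))))) := by
      rintro ⟨v, w⟩ hvw
      simp only [mem_filter, mem_univ, true_and] at hvw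
      obtain ⟨hadj, hmap⟩ := hvw
      rw [mem_union, mem_union]
      rcases hadj with ⟨rfl, rfl⟩ | ⟨c, hc, hcv, hcw⟩
      · exact Or.inl (mem_singleton_self _)
      · right
        obtain ⟨j, a, a', z, z', h1, h2, h3, h4, h5⟩ := mem_tot.1 hc
        rcases lt_trichotomy j k with hjk | hjk | hjk
        · left
          refine mem_biUnion.2 ⟨j, mem_filter.2 ⟨mem_univ _, hjk⟩, ?_⟩
          refine mem_image.2 ⟨(z, z', a, a', c.1), ?_, ?_⟩
          · simp only [mem_product, mem_univ, and_true]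
            exact ⟨h1, h2⟩
          · rw [hcv, hcw, h4, h5]
        · right
          subst hjk
          rw [hPk] at h3
          have h := mem_hx.1 h3
          have e1 : a = x (Sum.inl (φ c.1.1.1 c.1.1.2)) := h.1
          have e2 : a' = x (Sum.inr c.1.1.1) := h.2
          refine mem_biUnion.2 ⟨(z, z'), mem_product.2 ⟨h1, h2⟩, ?_⟩
          rw [mem_image]
          refine ⟨c.1.1, ?_, ?_⟩
          · rw [mem_filter]
            refine ⟨mem_univ _, c.1.2, ?_⟩
            have hm : I.map v w = cmap p d ((c.1.1.2 : ℕ) : ZMod p) (s c.1.1.1 c.1.1.2) :=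
              hmap_of_isEdge hφ ⟨hcv, hcw⟩
            rw [hm] at hmap
            show (xx z' c.1.1.1).1 - _ * _ + _ = (eV p).symm (A (ιV (some (φ c.1.1.1 c.1.1.2,
              enc (j, x (Sum.inl (φ c.1.1.1 c.1.1.2)), z)))))
            rw [← e1, ← h4, ← hcv, ← hmap]
            unfold cmap
            rw [Equiv.symm_apply_apply, hcw, h5, e2]
          · show (ιV (some (φ c.1.1.1 c.1.1.2, enc (j, x (Sum.inl (φ c.1.1.1 c.1.1.2)), z))),
              ιW (some (c.1.1.1, enc (j, x (Sum.inr c.1.1.1), z')))) = (v, w)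
            rw [← e1, ← e2, ← h4, ← h5, ← hcv, ← hcw]
        · rw [hgt j hjk] at h3
          exact absurd h3 (notMem_empty _)
    refine (card_le_card h2).trans ((card_union_le _ _).trans ?_)
    rw [card_singleton]
    refine Nat.add_le_add_left ((card_union_le _ _).trans (Nat.add_le_add ?_ ?_)) _
    · calc _ ≤ ∑ j ∈ univ.filter (fun j : Fin T => j < k),
            (β ^ 2) ^ (j : ℕ) * (m0 * m0 * Fintype.card (EE D B)) := by
            refine card_biUnion_le.trans (sum_le_sum fun j _ => card_image_le.trans (le_of_eq ?_))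
            simp only [card_product, card_univ, Fintype.card_fin, hCp]
            rw [← pow_mul, mul_comm 2, pow_mul, pow_two]
            ring
        _ = ∑ i ∈ range k, (β ^ 2) ^ i * (m0 * m0 * Fintype.card (EE D B)) := by
            refine sum_nbij (fun j => (j : ℕ)) ?_ ?_ ?_ fun _ _ => rfl
            · intro j hj
              exact mem_range.2 (mem_filter.1 hj).2
            · intro j _ j' _ h
              exact Fin.ext h
            · intro i hi
              have hi' : i < k := mem_range.1 (mem_coe.1 hi)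
              exact ⟨⟨i, lt_trans hi' k.2⟩, mem_coe.2 (mem_filter.2 ⟨mem_univ _, hi'⟩), rfl⟩
        _ = _ := by rw [sum_mul]
    · calc _ ≤ ∑ _zz ∈ Cp k ×ˢ Cp k, K := by
            refine card_biUnion_le.trans (sum_le_sum fun zz _ => card_image_le.trans ?_)
            exact (hs (xx zz.2) (yy zz.1)).le
        _ = _ := by
            rw [sum_const, card_product, hCp, smul_eq_mul, ← pow_mul, mul_comm 2, pow_mul, pow_two]
  -- the comparison
  have hγ2 : 2 ≤ β ^ 2 := hβ2.trans (Nat.le_self_pow (by norm_num) _)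
  have hgeo := geo (β ^ 2) hγ2 (k : ℕ)
  have hγpos : 1 ≤ (β ^ 2) ^ (k : ℕ) := Nat.one_le_pow _ _ (by omega)
  generalize (univ.filter fun e : Fin N × Fin N => I.adj e.1 e.2).card = cE at hE ⊢
  generalize (univ.filter fun e : Fin N × Fin N => I.adj e.1 e.2 ∧
      I.map e.1 e.2 (C e.2) = A e.1).card = cS at hS ⊢
  generalize ∑ i ∈ range k, (β ^ 2) ^ i = Sg at hS hgeo
  generalize (β ^ 2) ^ (k : ℕ) = G at hE hS hgeo hγpos
  generalize Fintype.card (EE D B) = EC at hE hS hK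
  have hEr : (G : ℝ) * EC ≤ cE := by exact_mod_cast hE
  have hSr : (cS : ℝ) ≤ 1 + ((Sg : ℝ) * ((m0 : ℝ) * m0 * EC) + G * K) := by exact_mod_cast hS
  have hgr : (β : ℝ) ^ 2 * Sg ≤ 2 * G := by exact_mod_cast hgeo
  have hG1 : (1 : ℝ) ≤ G := by exact_mod_cast hγpos
  have hSg0 : (0 : ℝ) ≤ Sg := Nat.cast_nonneg _
  have hEC0 : (0 : ℝ) ≤ EC := Nat.cast_nonneg _
  have hK0 : (0 : ℝ) ≤ K := Nat.cast_nonneg _
  have a1 : (m0 : ℝ) * m0 * Sg ≤ ε / 4 * G := by
    have b1 : 8 * ((m0 : ℝ) * m0) * Sg ≤ ε * (β : ℝ) ^ 2 * Sg := mul_le_mul_of_nonneg_right hβ hSg0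
    have b2 : ε * ((β : ℝ) ^ 2 * Sg) ≤ ε * (2 * G) := mul_le_mul_of_nonneg_left hgr hε.le
    linarith
  have a2 : (Sg : ℝ) * ((m0 : ℝ) * m0 * EC) ≤ ε / 4 * G * EC := by
    have := mul_le_mul_of_nonneg_right a1 hEC0
    linarith
  have a3 : (G : ℝ) * (2 + K) ≤ G * (ε / 2 * EC) := mul_le_mul_of_nonneg_left hK (by linarith)
  have a4 : ε * ((G : ℝ) * EC) ≤ ε * cE := mul_le_mul_of_nonneg_left hEr hε.le
  have a5 : 0 ≤ ε * ((G : ℝ) * EC) := by positivity
  have a6 : (cS : ℝ) < ε * cE := by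
    have b1 : (1 : ℝ) + G * K < G * (2 + K) := by nlinarith
    nlinarith
  exact a6

end

end Pool.Agent.N631.FT
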