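import Pool.Agent.N631.FT.Generic
import Pool.Agent.N631.FT.Scales
import Pool.Agent.H589R3.DT.Main

/-!
# Programs with few tests cannot approximate d-to-1 games: assembly (helper631)
-/

open scoped Classical
open Finset

namespace Pool.Agent.N631.FT

open H630VC (Prog marked)
open H589DT

/-- a polynomial is eventually smaller than the exponential -/
theorem pow_le_two_pow' : ∃ L0 : ℕ, ∀ L : ℕ, L0 ≤ L → 32 * L ^ 40 ≤ 2 ^ L := by
  have h := tendsto_pow_const_div_const_pow_of_one_lt 40 (r := (2 : ℝ)) (by norm_num)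
  have h1 := (h.eventually (gt_mem_nhds (show (0 : ℝ) < 1 / 32 by norm_num)))
  obtain ⟨L0, hL0⟩ := Filter.eventually_atTop.1 h1
  refine ⟨L0, fun L hL => ?_⟩
  have h2 := hL0 L hL
  rw [div_lt_div_iff₀ (by positivity) (by norm_num)] at h2
  have h3 : ((32 * L ^ 40 : ℕ) : ℝ) < ((2 ^ L : ℕ) : ℝ) := by
    push_cast
    linarith
  exact (Nat.cast_lt.1 h3).le

/-- the numerical condition on `M` -/
theorem numM (L q n m0 M K μ : ℕ) (hL : 1 ≤ L) (hq : 1 ≤ q) (hqL : 3 * q ≤ L)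
    (hμL : 264 * μ ≤ L) (hμ : 1 ≤ μ)
    (hn : n = L ^ 3) (hm : m0 = 264 * μ * L ^ 12) (hM : M = L ^ 2) (hK : K = 16 * μ)
    (hL0 : 32 * L ^ 40 ≤ 2 ^ L) :
    K * 2 ^ L * (2 * n * m0 * q + 1) ^ (2 * L) ≤ 2 ^ M := by
  have h2 : 2 * n * m0 * q + 1 ≤ L ^ 20 := by
    have e1 : 2 * n * m0 * q = 2 * q * (264 * μ) * L ^ 15 := by rw [hn, hm]; ring
    have e2 : 1 ≤ q * (264 * μ) * L ^ 15 := Nat.mul_pos (by positivity) (by positivity)
    calc 2 * n * m0 * q + 1 = 2 * (q * (264 * μ) * L ^ 15) + 1 := by rw [e1]; ring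
      _ ≤ 3 * (q * (264 * μ) * L ^ 15) := by omega
      _ = (3 * q) * (264 * μ) * L ^ 15 := by ring
      _ ≤ L * L * L ^ 15 := Nat.mul_le_mul_right _ (Nat.mul_le_mul hqL hμL)
      _ = L ^ 17 := by ring
      _ ≤ L ^ 20 := Nat.pow_le_pow_right (by omega) (by norm_num)
  have e8 : K ≤ 16 ^ L := by
    have g1 : K ≤ L := by rw [hK]; omega
    exact g1.trans (Nat.lt_pow_self (by norm_num)).le
  calc K * 2 ^ L * (2 * n * m0 * q + 1) ^ (2 * L)
      ≤ 16 ^ L * 2 ^ L * (L ^ 20) ^ (2 * L) :=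
        Nat.mul_le_mul (Nat.mul_le_mul_right _ e8) (Nat.pow_le_pow_left h2 _)
    _ = (32 * L ^ 40) ^ L := by
        have a2 : (L ^ 20) ^ (2 * L) = (L ^ 40) ^ L := by rw [← pow_mul, ← pow_mul]; ring_nf
        rw [a2, ← mul_pow, ← mul_pow]
        norm_num
    _ ≤ (2 ^ L) ^ L := Nat.pow_le_pow_left hL0 L
    _ = 2 ^ M := by rw [hM, ← pow_mul, pow_two]

/-- the number of vertices -/
theorem numN (L n m0 T β μ c : ℕ) (hL : 2 ≤ L) (hμ : 1 ≤ μ)
    (hμL : 264 * μ ≤ L) (hcL : c ≤ L)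
    (hn : n = L ^ 3) (hm : m0 = 264 * μ * L ^ 12) (hT : T = 4 * μ) (hβ : β = m0 * c) :
    n * (T * m0 * β ^ T) + 1 ≤ L ^ (100 * μ) := by
  have h1 : m0 ≤ L ^ 13 := by
    calc m0 = 264 * μ * L ^ 12 := hm
      _ ≤ L * L ^ 12 := Nat.mul_le_mul_right _ hμL
      _ = L ^ 13 := by ring
  have h2 : β ≤ L ^ 14 := by
    calc β = m0 * c := hβ
      _ ≤ L ^ 13 * L := Nat.mul_le_mul h1 hcL
      _ = L ^ 14 := by ring
  have h3 : T ≤ L := by omega
  have h4 : β ^ T ≤ L ^ (56 * μ) := by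
    calc β ^ T ≤ (L ^ 14) ^ T := Nat.pow_le_pow_left h2 _
      _ = L ^ (56 * μ) := by rw [← pow_mul, hT]; congr 1; ring
  have h5 : n * (T * m0 * β ^ T) ≤ L ^ (17 + 56 * μ) := by
    calc n * (T * m0 * β ^ T) ≤ L ^ 3 * (L * L ^ 13 * L ^ (56 * μ)) := by
          rw [hn]
          exact Nat.mul_le_mul_left _ (Nat.mul_le_mul (Nat.mul_le_mul h3 h1) h4)
      _ = L ^ (17 + 56 * μ) := by rw [pow_add]; ring
  have h6 : 1 ≤ L ^ (17 + 56 * μ) := Nat.one_le_pow _ _ (by omega)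
  calc n * (T * m0 * β ^ T) + 1 ≤ 2 * L ^ (17 + 56 * μ) := by omega
    _ ≤ L * L ^ (17 + 56 * μ) := Nat.mul_le_mul_right _ hL
    _ = L ^ (18 + 56 * μ) := by
        rw [show 18 + 56 * μ = (17 + 56 * μ) + 1 by ring, pow_succ]
        ring
    _ ≤ L ^ (100 * μ) := Nat.pow_le_pow_right (by omega) (by omega)

/-- the lower bound for randomised programs with few tests -/
theorem main_T (d : ℕ) (hd : 2 ≤ d) (ε : ℝ) (hε : 0 < ε) :
    ∃ R C : ℕ, 1 ≤ R ∧ ∀ μ L N : ℕ, 1 ≤ μ → C * μ ≤ L → L ^ (100 * μ) ≤ N →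
      ∀ (Ω : Type) [Fintype Ω] [Nonempty Ω] (S m : Ω → ℕ)
        (F : Ω → DGame (Fin N) (Fin N) d R → Bool),
      (∀ ω, TProg (dInputs (Fin N) (Fin N) d R) [] (S ω) (m ω) (F ω)) → (∀ ω, m ω ≤ μ) →
      (∀ I, DNo ε I → 3 * Fintype.card Ω ≤ 4 * (univ.filter fun ω => F ω I = true).card) →
      (∀ I, DYes I → 3 * Fintype.card Ω ≤ 4 * (univ.filter fun ω => F ω I = false).card) →
      ∃ ω, 2 ^ L ≤ S ω := by
  obtain ⟨p, D, hp, hkp, hDp, hD⟩ := choice_p d (Nat.ceil (16 / ε)) hd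
  set k := Nat.ceil (16 / ε) with hk
  have hp1 : 1 ≤ p := hp.one_lt.le
  have : NeZero p := ⟨hp.pos.ne'⟩
  have : NeZero d := ⟨by omega⟩
  set r := 2 * (d * p) + 4 with hr
  set h := 3 * r with hh
  have hD1 : 1 ≤ D := by
    by_contra h0
    have : D = 0 := by omega
    rw [this, pow_zero] at hD
    have : 1 ≤ d * p ^ 2 := Nat.mul_pos (by omega) (pow_pos hp.pos 2)
    omega
  obtain ⟨n0, hn0⟩ := t_EX D (2 * h) r (by omega)
  obtain ⟨L0, hL0⟩ := pow_le_two_pow'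
  refine ⟨p, n0 + L0 + 64 * (h + 1) ^ 2 + 16896 * (d * p) ^ 2 + Nat.ceil (24 / ε) +
    Nat.ceil (8 / ε) + 264, hp1, ?_⟩
  intro μ L N hμ hCL hN Ω _ _ S m F hprog hmμ hno hyes
  set C1 := n0 + L0 + 64 * (h + 1) ^ 2 + 16896 * (d * p) ^ 2 + Nat.ceil (24 / ε) +
    Nat.ceil (8 / ε) + 264 with hC1
  have hL : C1 ≤ L := (Nat.le_mul_of_pos_right C1 hμ).trans hCL
  have hμL : 264 * μ ≤ L := (Nat.mul_le_mul_right μ (by omega : 264 ≤ C1)).trans hCL
  have hL2 : 2 ≤ L := by omega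
  -- the graph
  obtain ⟨n, hn⟩ : ∃ n, n = L ^ 3 := ⟨_, rfl⟩
  obtain ⟨M, hM⟩ : ∃ M, M = L ^ 2 := ⟨_, rfl⟩
  obtain ⟨Q, hQ⟩ : ∃ Q, Q = L ^ 11 := ⟨_, rfl⟩
  obtain ⟨m0, hm⟩ : ∃ m0, m0 = 264 * μ * L ^ 12 := ⟨_, rfl⟩
  obtain ⟨T, hT⟩ : ∃ T, T = 4 * μ := ⟨_, rfl⟩
  obtain ⟨K1, hK1⟩ : ∃ K1, K1 = 16 * μ := ⟨_, rfl⟩
  obtain ⟨β, hβ⟩ : ∃ β, β = m0 * Nat.ceil (8 / ε) := ⟨_, rfl⟩
  have hLn : L ≤ n := by
    rw [hn]
    calc L = L ^ 1 := (pow_one L).symm
      _ ≤ L ^ 3 := Nat.pow_le_pow_right (by omega) (by norm_num)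
  obtain ⟨φ, B, hB, hsp, hgi⟩ := hn0 n (by omega)
  have hφ := phi_inj (fun S hS hS2 => hgi S hS (hS2.trans (by omega)))
  -- the number of edges and `K`
  have hEE := card_EE (D := D) B
  have hE2 : n * D ≤ 2 * Fintype.card (EE D B) := by
    rw [hEE]
    calc n * D ≤ (2 * (n - B.card)) * D := Nat.mul_le_mul_right _ (by omega)
      _ = _ := by ring
  set EC := Fintype.card (EE D B) with hEC
  set K := Nat.ceil (ε * EC / 4) with hK
  have hECr : (12 : ℝ) / ε ≤ EC := by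
    have h1 : (24 / ε : ℝ) ≤ L := (Nat.le_ceil _).trans (Nat.cast_le.2 (by omega))
    have h2 : n ≤ 2 * EC := (Nat.le_mul_of_pos_right n hD1).trans hE2
    have h3 : (L : ℝ) ≤ 2 * EC := by exact_mod_cast hLn.trans h2
    have h4 : (24 / ε : ℝ) = 2 * (12 / ε) := by ring
    linarith
  have hKlt : (2 : ℝ) + K ≤ ε / 2 * EC := by
    have h1 : (K : ℝ) < ε * EC / 4 + 1 := Nat.ceil_lt_add_one (by positivity)
    have h2 : 12 ≤ EC * ε := (div_le_iff₀ hε).1 hECr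
    linarith
  have hpK : (d * p ^ 2) ^ n * 2 ^ (D * n) < p ^ K := by
    have h1 : 2 * (D * n) ≤ k * K := by
      have h2 : (16 / ε : ℝ) ≤ k := Nat.le_ceil _
      have h3 : ε * EC / 4 ≤ (K : ℝ) := Nat.le_ceil _
      have h4 : (4 * EC : ℝ) ≤ k * K := by
        calc (4 * EC : ℝ) = (16 / ε) * (ε * EC / 4) := by field_simp; ring
          _ ≤ k * K := mul_le_mul h2 h3 (by positivity) (by positivity)
      have h5 : (4 * EC : ℕ) ≤ k * K := by exact_mod_cast h4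
      calc 2 * (D * n) = 2 * (n * D) := by ring
        _ ≤ 2 * (2 * EC) := Nat.mul_le_mul_left _ hE2
        _ = 4 * EC := by ring
        _ ≤ _ := h5
    have hn1 : n ≠ 0 := by omega
    calc (d * p ^ 2) ^ n * 2 ^ (D * n) < (2 ^ D) ^ n * 2 ^ (D * n) := by
          apply Nat.mul_lt_mul_of_pos_right _ (by positivity)
          exact Nat.pow_lt_pow_left hD hn1
      _ = 2 ^ (2 * (D * n)) := by rw [← pow_mul, two_mul, pow_add]
      _ ≤ 2 ^ (k * K) := Nat.pow_le_pow_right (by norm_num) h1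
      _ = (2 ^ k) ^ K := by rw [pow_mul]
      _ ≤ p ^ K := Nat.pow_le_pow_left hkp K
  obtain ⟨s, hs⟩ := t_SH n D p d K hp1 φ B hpK
  -- local consistency
  set G := gameGraph (d := d) φ B s with hG
  have hGgirth : G.Girth r := fun S hS hSr => lt_of_le_of_lt (ein_le φ B s S) (hgi S hS hSr)
  have hGsparse : G.Sparse (2 * h) (8 * (h + 1) * L) := by
    intro S hS
    refine (ein_le φ B s S).trans (hsp S ?_)
    calc S.card ^ 2 ≤ (8 * (h + 1) * L) ^ 2 := Nat.pow_le_pow_left hS 2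
      _ = (64 * (h + 1) ^ 2) * L ^ 2 := by ring
      _ ≤ L * L ^ 2 := Nat.mul_le_mul_right _ (by omega)
      _ = n := by rw [hn]; ring
  obtain ⟨Fl, hFl⟩ := lo_all _ _ _ G r h (8 * (h + 1) * L) (2 * L) (by omega) le_rfl
    (gameGraph_surj (by omega) φ B s) (t_MX n D p d hp hDp hd φ B s) hGgirth hGsparse
    (by ring_nf; exact le_rfl)
  -- parameters of the approximation
  set q := d * p with hq
  have hLpos : 0 < L := by omega
  have hm0pos : 0 < m0 := by rw [hm]; positivity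
  have : NeZero m0 := ⟨hm0pos.ne'⟩
  have hc1 : 1 ≤ Nat.ceil (8 / ε) := Nat.one_le_ceil_iff.2 (by positivity)
  have hcL : Nat.ceil (8 / ε) ≤ L := by omega
  have hm0L : 264 ≤ m0 := by
    rw [hm]
    calc 264 = 264 * 1 * 1 := by norm_num
      _ ≤ 264 * μ * L ^ 12 := Nat.mul_le_mul (Nat.mul_le_mul_left _ hμ) (Nat.one_le_pow _ _ hLpos)
  have hβ2 : 2 ≤ β := by
    rw [hβ]
    calc 2 ≤ m0 := by omega
      _ = m0 * 1 := (mul_one _).symm
      _ ≤ _ := Nat.mul_le_mul_left _ hc1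
  have hβr : 8 * ((m0 : ℝ) * m0) ≤ ε * (β : ℝ) ^ 2 := by
    have g1 : (8 / ε : ℝ) ≤ (Nat.ceil (8 / ε) : ℝ) := Nat.le_ceil _
    have g2 : (1 : ℝ) ≤ (Nat.ceil (8 / ε) : ℝ) := by exact_mod_cast hc1
    have g3 : (8 : ℝ) ≤ ε * (Nat.ceil (8 / ε) : ℝ) := by
      rw [div_le_iff₀ hε] at g1
      linarith
    have g4 : (8 : ℝ) ≤ ε * (Nat.ceil (8 / ε) : ℝ) ^ 2 := by
      calc (8 : ℝ) ≤ ε * (Nat.ceil (8 / ε) : ℝ) := g3
        _ ≤ ε * (Nat.ceil (8 / ε) : ℝ) ^ 2 := by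
            exact mul_le_mul_of_nonneg_left (le_self_pow₀ g2 (by norm_num)) hε.le
    rw [hβ]
    push_cast
    have g5 : (0 : ℝ) ≤ (m0 : ℝ) * m0 := by positivity
    calc 8 * ((m0 : ℝ) * m0) ≤ (ε * (Nat.ceil (8 / ε) : ℝ) ^ 2) * ((m0 : ℝ) * m0) :=
          mul_le_mul_of_nonneg_right g4 g5
      _ = _ := by ring
  have hTpos : 0 < T := by omega
  -- the copies
  have henc : ∃ enc : Fin T × Fin m0 × Fin (β ^ T) ≃ Fin (T * m0 * β ^ T), True :=
    ⟨Fintype.equivFinOfCardEq (by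
      rw [Fintype.card_prod, Fintype.card_prod, Fintype.card_fin, Fintype.card_fin,
        Fintype.card_fin]
      ring), trivial⟩
  obtain ⟨enc, -⟩ := henc
  have hCpe : ∀ j : Fin T, ∃ Cj : Finset (Fin (β ^ T)), Cj.card = β ^ (j : ℕ) := by
    intro j
    have hle : β ^ (j : ℕ) ≤ (univ : Finset (Fin (β ^ T))).card := by
      rw [card_univ, Fintype.card_fin]
      exact Nat.pow_le_pow_right (by omega) j.2.le
    obtain ⟨Cj, -, hCj⟩ := exists_subset_card_eq hle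
    exact ⟨Cj, hCj⟩
  choose Cp hCp using hCpe
  have hcardV : Fintype.card (Option (Fin n × Fin (T * m0 * β ^ T))) ≤ Fintype.card (Fin N) := by
    rw [Fintype.card_option, Fintype.card_prod, Fintype.card_fin, Fintype.card_fin,
      Fintype.card_fin]
    exact (numN L n m0 T β μ _ hL2 hμ hμL hcL hn hm hT hβ).trans hN
  obtain ⟨ιV⟩ := Function.Embedding.nonempty_of_card_le hcardV
  have hcardΛ : Fintype.card (ZMod p × Fin d) = q := by
    rw [Fintype.card_prod, ZMod.card, Fintype.card_fin, mul_comm]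
  have hcardU : Fintype.card (Fin n ⊕ Fin n) = 2 * n := by
    rw [Fintype.card_sum, Fintype.card_fin]; ring
  have hQ1 : 1 ≤ Q := by rw [hQ]; exact Nat.one_le_pow _ _ (by omega)
  have hM1 : 1 ≤ M := by rw [hM]; exact Nat.one_le_pow _ _ (by omega)
  have hq1 : 1 ≤ q := Nat.mul_pos (by omega) hp.pos
  have hqL : 16896 * q ^ 2 ≤ L := by omega
  have hqL' : 3 * q ≤ L := by
    have : q ≤ q ^ 2 := Nat.le_self_pow (by norm_num) q
    omega
  refine generic hd_all t_NC G L M Q K1 T μ Fl hFl (by omega) hM1 hQ1 hμ (by omega) (by omega)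
    ?_ ?_ ?_ ?_ (fun P => hostInst φ B s ιV ιV d (tot enc.toEmbedding Cp P))
    (dInputs (Fin N) (Fin N) d p) (fun P j => hostInputs_scale hφ P j)
    (fun P P' hPP g hg => host_mono hφ (tot_mono hPP) g hg) Ω S m F hprog hmμ ?_ ?_
  · rw [Fintype.card_fin, hm, hQ, hK1]
    calc (2 * (16 * μ) + 1) * (8 * L * L ^ 11) ≤ (33 * μ) * (8 * L * L ^ 11) :=
          Nat.mul_le_mul_right _ (by omega)
      _ = 264 * μ * L ^ 12 := by ring
  · rw [hcardU, Fintype.card_fin, hcardΛ]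
    calc 8 * T * (2 * n * m0 * q ^ 2 * M ^ 2)
        = 64 * 264 * (μ * μ) * q ^ 2 * L ^ 19 := by rw [hn, hm, hM, hT]; ring
      _ = (16896 * q ^ 2) * (μ * μ) * L ^ 19 := by ring
      _ ≤ L * (L * L) * L ^ 19 :=
          Nat.mul_le_mul_right _ (Nat.mul_le_mul hqL (Nat.mul_le_mul (by omega) (by omega)))
      _ = Q ^ 2 := by rw [hQ]; ring
  · have e1 : 2 * K1 ≤ 4 ^ L := by
      have : 2 * K1 ≤ L := by rw [hK1]; omega
      exact this.trans (Nat.lt_pow_self (by norm_num)).le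
    calc 2 * K1 * 2 ^ L ≤ 4 ^ L * 2 ^ L := Nat.mul_le_mul_right _ e1
      _ = 8 ^ L := by
          rw [← mul_pow]
          norm_num
  · rw [hcardU, Fintype.card_fin, hcardΛ]
    exact numM L q n m0 M K1 μ (by omega) hq1 hqL' hμL hμ hn hm hM hK1 (hL0 L (by omega))
  · intro P j x hPj hPgt
    exact hno _ (scales_no hφ ε hε K β hs hCp hβ2 hβr hKlt P j x hPj hPgt)
  · intro P Tj hTj hPT
    exact hyes _ (scales_yes hφ P Tj hTj hPT)

end Pool.Agent.N631.FT
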