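import Mathlib

/-!
# Averaging over a chain of scales (helper631)
-/

open scoped Classical
open Finset

namespace Pool.Agent.N631.FT

/-- the exchange of a sample with one coordinate of a family of samples -/
theorem coord {Y : Type} [Fintype Y] [Nonempty Y] {T : ℕ} (k : Fin T)
    (B : (Fin T → Y) → Finset Y) (hB : ∀ y z, B (Function.update y k z) = B y) (a c : ℕ)
    (h : ∀ y, c * (B y).card ≤ a * Fintype.card Y) :
    c * (univ.filter fun y : Fin T → Y => y k ∈ B y).card ≤ a * Fintype.card (Fin T → Y) := by
  have e : ((univ : Finset ((Fin T → Y) × Y)).filter fun p => p.1 k ∈ B p.1).card =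
      ((univ : Finset ((Fin T → Y) × Y)).filter fun p => p.2 ∈ B p.1).card := by
    refine Finset.card_bij' (fun p _ => (Function.update p.1 k p.2, p.1 k))
      (fun p _ => (Function.update p.1 k p.2, p.1 k)) ?_ ?_ ?_ ?_
    · intro p hp
      have := (mem_filter.1 hp).2
      refine mem_filter.2 ⟨mem_univ _, ?_⟩
      show p.1 k ∈ B (Function.update p.1 k p.2)
      rw [hB]
      exact this
    · intro p hp
      have := (mem_filter.1 hp).2
      refine mem_filter.2 ⟨mem_univ _, ?_⟩
      show Function.update p.1 k p.2 k ∈ B (Function.update p.1 k p.2)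
      rw [hB, Function.update_self]
      exact this
    · intro p _
      ext1
      · show Function.update (Function.update p.1 k p.2) k (p.1 k) = p.1
        rw [Function.update_idem, Function.update_eq_self]
      · show Function.update p.1 k p.2 k = p.2
        rw [Function.update_self]
    · intro p _
      ext1
      · show Function.update (Function.update p.1 k p.2) k (p.1 k) = p.1
        rw [Function.update_idem, Function.update_eq_self]
      · show Function.update p.1 k p.2 k = p.2
        rw [Function.update_self]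
  have e1 : ((univ : Finset ((Fin T → Y) × Y)).filter fun p => p.1 k ∈ B p.1).card =
      (univ.filter fun y : Fin T → Y => y k ∈ B y).card * Fintype.card Y := by
    have : ((univ : Finset ((Fin T → Y) × Y)).filter fun p => p.1 k ∈ B p.1) =
        (univ.filter fun y : Fin T → Y => y k ∈ B y) ×ˢ (univ : Finset Y) := by
      ext ⟨y, z⟩
      simp
    rw [this, card_product, card_univ]
  have e2 : ((univ : Finset ((Fin T → Y) × Y)).filter fun p => p.2 ∈ B p.1).card =
      ∑ y, (B y).card := by
    rw [card_filter, Fintype.sum_prod_type]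
    refine sum_congr rfl fun y _ => ?_
    simp
  have hpos : 0 < Fintype.card Y := Fintype.card_pos
  refine Nat.le_of_mul_le_mul_right ?_ hpos
  calc c * (univ.filter fun y : Fin T → Y => y k ∈ B y).card * Fintype.card Y
      = c * ∑ y, (B y).card := by rw [← e2, ← e, e1]; ring
    _ = ∑ y, c * (B y).card := by rw [mul_sum]
    _ ≤ ∑ _y : Fin T → Y, a * Fintype.card Y := sum_le_sum fun y _ => h y
    _ = a * Fintype.card (Fin T → Y) * Fintype.card Y := by
        rw [sum_const, card_univ, smul_eq_mul]; ring

/-- a nondecreasing sequence changes rarely -/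
theorem changes (g : ℕ → ℕ) (T : ℕ) (hg : ∀ k < T, g k ≤ g (k + 1)) :
    (∑ k ∈ range T, if g (k + 1) = g k then 0 else 1) + g 0 ≤ g T := by
  induction T with
  | zero => simp
  | succ T ih =>
    have h1 := ih fun k hk => hg k (by omega)
    have h2 := hg T (by omega)
    rw [sum_range_succ]
    split_ifs with h
    · omega
    · omega

/-- complement of a filter -/
theorem card_not {Ω : Type} [Fintype Ω] (p : Ω → Prop) [DecidablePred p]
    (h : 3 * Fintype.card Ω ≤ 4 * (univ.filter p).card) :
    4 * (univ.filter fun ω => ¬ p ω).card ≤ Fintype.card Ω := by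
  have h1 := card_filter_add_card_filter_not (s := (univ : Finset Ω)) p
  rw [card_univ] at h1
  omega

/-- the averaging argument -/
theorem chain_bound {Ω X Y I : Type} [Fintype Ω] [Fintype X] [Fintype Y] [Nonempty Ω] [Nonempty X]
    [Nonempty Y] (T m K : ℕ) (F : Ω → I → Bool) (lf : Ω → I → ℕ) (hlt : ∀ ω i, lf ω i < m)
    (c : (Fin T → Y) → ℕ → I) (no : (Fin T → Y) → Fin T → X → I)
    (hF1 : ∀ ω y k x, lf ω (no y k x) = lf ω (c y k) → F ω (no y k x) = F ω (c y k))
    (hF2 : ∀ ω y (k : Fin T), lf ω (c y (k + 1)) = lf ω (c y k) →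
      F ω (c y (k + 1)) = F ω (c y k))
    (hmono : ∀ ω y (k : Fin T), lf ω (c y k) ≤ lf ω (c y (k + 1)))
    (BX : Ω → Fin T → (Fin T → Y) → Finset X) (BY : Ω → Fin T → (Fin T → Y) → Finset Y)
    (hstep : ∀ ω k y x, x ∉ BX ω k y → y k ∉ BY ω k y →
      lf ω (c y (k + 1)) = lf ω (c y k) → lf ω (no y k x) = lf ω (c y k))
    (hBY : ∀ ω k y z, BY ω k (Function.update y k z) = BY ω k y)
    (hK : 16 * m ≤ K) (hm : 1 ≤ m)
    (hBXc : ∀ ω k y, K * (BX ω k y).card ≤ (m - 1) * Fintype.card X)
    (hBYc : ∀ ω k y, K * (BY ω k y).card ≤ (m - 1) * Fintype.card Y)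
    (hno : ∀ y k x, 3 * Fintype.card Ω ≤ 4 * (univ.filter fun ω => F ω (no y k x) = true).card)
    (bad : Finset Y) (hbad : 8 * T * bad.card ≤ Fintype.card Y)
    (hyes : ∀ y (k : Fin T), (∀ j, y j ∉ bad) →
      3 * Fintype.card Ω ≤ 4 * (univ.filter fun ω => F ω (c y (k + 1)) = false).card) :
    T ≤ 4 * (m - 1) := by
  have hXpos : 0 < Fintype.card X := Fintype.card_pos
  have hΩpos : 0 < Fintype.card Ω := Fintype.card_pos
  have hZpos : 0 < Fintype.card (Fin T → Y) := Fintype.card_pos
  -- the bad families
  set badY : Finset (Fin T → Y) := univ.filter fun y => ∃ j, y j ∈ bad with hbadY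
  have hbadYc : 8 * badY.card ≤ Fintype.card (Fin T → Y) := by
    rcases Nat.eq_zero_or_pos T with h0 | h0
    · subst h0
      have : badY = ∅ := by
        rw [hbadY, filter_eq_empty_iff]
        rintro y _ ⟨j, -⟩
        exact j.elim0
      rw [this]
      simp
    · have h1 : ∀ j : Fin T, 8 * T * (univ.filter fun y : Fin T → Y => y j ∈ bad).card ≤
          Fintype.card (Fin T → Y) := by
        intro j
        have := coord j (fun _ => bad) (fun _ _ => rfl) 1 (8 * T) (fun _ => by rw [one_mul]; exact hbad)
        rwa [one_mul] at this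
      have h2 : badY ⊆ univ.biUnion fun j : Fin T => univ.filter fun y : Fin T → Y => y j ∈ bad := by
        intro y hy
        obtain ⟨j, hj⟩ := (mem_filter.1 hy).2
        exact mem_biUnion.2 ⟨j, mem_univ _, mem_filter.2 ⟨mem_univ _, hj⟩⟩
      have h3 : 8 * T * badY.card ≤ T * Fintype.card (Fin T → Y) := by
        calc 8 * T * badY.card
            ≤ 8 * T * ∑ j : Fin T, (univ.filter fun y : Fin T → Y => y j ∈ bad).card :=
              Nat.mul_le_mul_left _ ((card_le_card h2).trans card_biUnion_le)
          _ = ∑ j : Fin T, 8 * T * (univ.filter fun y : Fin T → Y => y j ∈ bad).card := by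
              rw [mul_sum]
          _ ≤ ∑ _j : Fin T, Fintype.card (Fin T → Y) := sum_le_sum fun j _ => h1 j
          _ = T * Fintype.card (Fin T → Y) := by
              rw [sum_const, card_univ, Fintype.card_fin, smul_eq_mul]
      have h4 : T * (8 * badY.card) ≤ T * Fintype.card (Fin T → Y) := by
        calc _ = 8 * T * badY.card := by ring
          _ ≤ _ := h3
      exact Nat.le_of_mul_le_mul_left h4 h0
  -- one scale
  have hone : ∀ k : Fin T, Fintype.card Ω * Fintype.card (Fin T → Y) ≤
      4 * ∑ ω : Ω, ∑ y : Fin T → Y, (if lf ω (c y (k + 1)) = lf ω (c y k) then 0 else 1) := by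
    intro k
    set P1 := ∑ ω : Ω, ∑ y : Fin T → Y, (if lf ω (c y (k + 1)) = lf ω (c y k) then 0 else 1)
      with hP1
    -- the pointwise inequality
    have hpt : ∀ (x : X) (ω : Ω) (y : Fin T → Y), 1 ≤
        (if lf ω (c y (k + 1)) = lf ω (c y k) then 0 else 1) +
        (if ¬ F ω (no y k x) = true then 1 else 0) +
        (if ¬ F ω (c y (k + 1)) = false then 1 else 0) +
        (if x ∈ BX ω k y then 1 else 0) + (if y k ∈ BY ω k y then 1 else 0) := by
      intro x ω y
      by_cases h1 : lf ω (c y (k + 1)) = lf ω (c y k)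
      · by_cases h4 : x ∈ BX ω k y
        · simp only [h4, if_true]
          omega
        · by_cases h5 : y k ∈ BY ω k y
          · simp only [h5, if_true]
            omega
          · have h6 := hstep ω k y x h4 h5 h1
            have h7 : F ω (no y k x) = F ω (c y (k + 1)) :=
              (hF1 ω y k x h6).trans (hF2 ω y k h1).symm
            by_cases h8 : F ω (c y (k + 1)) = false
            · have h9 : ¬ F ω (no y k x) = true := by rw [h7, h8]; simp
              rw [if_pos h9]
              omega
            · rw [if_pos h8]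
              omega
      · simp only [h1, if_false]
        omega
    have hsum : ∀ x : X, Fintype.card Ω * Fintype.card (Fin T → Y) ≤ P1 +
        ∑ ω : Ω, ∑ y : Fin T → Y, (if ¬ F ω (no y k x) = true then 1 else 0) +
        ∑ ω : Ω, ∑ y : Fin T → Y, (if ¬ F ω (c y (k + 1)) = false then 1 else 0) +
        ∑ ω : Ω, ∑ y : Fin T → Y, (if x ∈ BX ω k y then 1 else 0) +
        ∑ ω : Ω, ∑ y : Fin T → Y, (if y k ∈ BY ω k y then 1 else 0) := by
      intro x
      rw [hP1, ← sum_add_distrib, ← sum_add_distrib, ← sum_add_distrib, ← sum_add_distrib]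
      simp only [← sum_add_distrib]
      calc Fintype.card Ω * Fintype.card (Fin T → Y) = ∑ _ω : Ω, ∑ _y : Fin T → Y, 1 := by
            simp only [sum_const, card_univ, smul_eq_mul, mul_one]
        _ ≤ _ := sum_le_sum fun ω _ => sum_le_sum fun y _ => hpt x ω y
    -- the second term
    have h2 : ∀ x : X, 4 * ∑ ω : Ω, ∑ y : Fin T → Y, (if ¬ F ω (no y k x) = true then 1 else 0) ≤
        Fintype.card Ω * Fintype.card (Fin T → Y) := by
      intro x
      rw [sum_comm, mul_sum]
      calc _ ≤ ∑ _y : Fin T → Y, Fintype.card Ω := by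
            refine sum_le_sum fun y _ => ?_
            rw [← card_filter]
            exact card_not _ (hno y k x)
        _ = _ := by rw [sum_const, card_univ, smul_eq_mul, mul_comm]
    -- the third term
    have h3 : 8 * ∑ ω : Ω, ∑ y : Fin T → Y, (if ¬ F ω (c y (k + 1)) = false then 1 else 0) ≤
        3 * (Fintype.card Ω * Fintype.card (Fin T → Y)) := by
      rw [sum_comm]
      have g1 : ∀ y : Fin T → Y, 8 * ∑ ω : Ω, (if ¬ F ω (c y (k + 1)) = false then 1 else 0) ≤
          2 * Fintype.card Ω + 8 * (if y ∈ badY then Fintype.card Ω else 0) := by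
        intro y
        rw [← card_filter]
        by_cases hy : y ∈ badY
        · rw [if_pos hy]
          have := card_le_univ (univ.filter fun ω => ¬ F ω (c y (k + 1)) = false)
          omega
        · rw [if_neg hy]
          have := card_not _ (hyes y k (fun j hj => hy (mem_filter.2 ⟨mem_univ _, j, hj⟩)))
          omega
      calc _ = ∑ y : Fin T → Y, 8 * ∑ ω : Ω, (if ¬ F ω (c y (k + 1)) = false then 1 else 0) := by
            rw [mul_sum]
        _ ≤ ∑ y : Fin T → Y, (2 * Fintype.card Ω + 8 * (if y ∈ badY then Fintype.card Ω else 0)) :=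
            sum_le_sum fun y _ => g1 y
        _ = 2 * Fintype.card Ω * Fintype.card (Fin T → Y) + 8 * (badY.card * Fintype.card Ω) := by
            rw [sum_add_distrib, sum_const, card_univ, smul_eq_mul, ← mul_sum, ← sum_filter,
              filter_mem_eq_inter, univ_inter, sum_const, smul_eq_mul]
            ring
        _ = 2 * Fintype.card Ω * Fintype.card (Fin T → Y) + (8 * badY.card) * Fintype.card Ω := by
            ring
        _ ≤ 2 * Fintype.card Ω * Fintype.card (Fin T → Y) +
            Fintype.card (Fin T → Y) * Fintype.card Ω :=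
            Nat.add_le_add_left (Nat.mul_le_mul_right _ hbadYc) _
        _ = _ := by ring
    -- the fourth term
    have h4 : 16 * ∑ x : X, ∑ ω : Ω, ∑ y : Fin T → Y, (if x ∈ BX ω k y then 1 else 0) ≤
        Fintype.card Ω * Fintype.card (Fin T → Y) * Fintype.card X := by
      have g1 : ∀ ω y, 16 * (BX ω k y).card ≤ Fintype.card X := by
        intro ω y
        have g2 := hBXc ω k y
        have g3 : m * (16 * (BX ω k y).card) ≤ m * Fintype.card X := by
          calc m * (16 * (BX ω k y).card) = (16 * m) * (BX ω k y).card := by ring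
            _ ≤ K * (BX ω k y).card := Nat.mul_le_mul_right _ hK
            _ ≤ (m - 1) * Fintype.card X := g2
            _ ≤ m * Fintype.card X := Nat.mul_le_mul_right _ (by omega)
        exact Nat.le_of_mul_le_mul_left g3 hm
      have g4 : ∑ x : X, ∑ ω : Ω, ∑ y : Fin T → Y, (if x ∈ BX ω k y then 1 else 0) =
          ∑ ω : Ω, ∑ y : Fin T → Y, (BX ω k y).card := by
        rw [sum_comm]
        refine sum_congr rfl fun ω _ => ?_
        rw [sum_comm]
        refine sum_congr rfl fun y _ => ?_
        simp
      rw [g4, mul_sum]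
      calc _ = ∑ ω : Ω, ∑ y : Fin T → Y, 16 * (BX ω k y).card :=
            sum_congr rfl fun ω _ => by rw [mul_sum]
        _ ≤ ∑ _ω : Ω, ∑ _y : Fin T → Y, Fintype.card X :=
            sum_le_sum fun ω _ => sum_le_sum fun y _ => g1 ω y
        _ = _ := by
            simp only [sum_const, card_univ, smul_eq_mul]
            ring
    -- the fifth term
    have h5 : 16 * ∑ ω : Ω, ∑ y : Fin T → Y, (if y k ∈ BY ω k y then 1 else 0) ≤
        Fintype.card Ω * Fintype.card (Fin T → Y) := by
      have g1 : ∀ ω, 16 * ∑ y : Fin T → Y, (if y k ∈ BY ω k y then 1 else 0) ≤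
          Fintype.card (Fin T → Y) := by
        intro ω
        rw [← card_filter]
        have g2 := coord k (BY ω k) (hBY ω k) (m - 1) K (hBYc ω k)
        have g3 : m * (16 * (univ.filter fun y : Fin T → Y => y k ∈ BY ω k y).card) ≤
            m * Fintype.card (Fin T → Y) := by
          calc _ = (16 * m) * (univ.filter fun y : Fin T → Y => y k ∈ BY ω k y).card := by ring
            _ ≤ K * (univ.filter fun y : Fin T → Y => y k ∈ BY ω k y).card :=
                Nat.mul_le_mul_right _ hK
            _ ≤ (m - 1) * Fintype.card (Fin T → Y) := g2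
            _ ≤ _ := Nat.mul_le_mul_right _ (by omega)
        exact Nat.le_of_mul_le_mul_left g3 hm
      rw [mul_sum]
      calc _ ≤ ∑ _ω : Ω, Fintype.card (Fin T → Y) := sum_le_sum fun ω _ => g1 ω
        _ = _ := by rw [sum_const, card_univ, smul_eq_mul]
    -- the sum over `x`
    have h6 : Fintype.card X * (Fintype.card Ω * Fintype.card (Fin T → Y)) ≤
        Fintype.card X * P1 +
        ∑ x : X, ∑ ω : Ω, ∑ y : Fin T → Y, (if ¬ F ω (no y k x) = true then 1 else 0) +
        Fintype.card X *
          ∑ ω : Ω, ∑ y : Fin T → Y, (if ¬ F ω (c y (k + 1)) = false then 1 else 0) +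
        ∑ x : X, ∑ ω : Ω, ∑ y : Fin T → Y, (if x ∈ BX ω k y then 1 else 0) +
        Fintype.card X * ∑ ω : Ω, ∑ y : Fin T → Y, (if y k ∈ BY ω k y then 1 else 0) := by
      calc Fintype.card X * (Fintype.card Ω * Fintype.card (Fin T → Y))
          = ∑ _x : X, Fintype.card Ω * Fintype.card (Fin T → Y) := by
            rw [sum_const, card_univ, smul_eq_mul]
        _ ≤ _ := sum_le_sum fun x _ => hsum x
        _ = _ := by
            simp only [sum_add_distrib, sum_const, card_univ, smul_eq_mul]
    have h7 : 4 * ∑ x : X, ∑ ω : Ω, ∑ y : Fin T → Y, (if ¬ F ω (no y k x) = true then 1 else 0) ≤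
        Fintype.card X * (Fintype.card Ω * Fintype.card (Fin T → Y)) := by
      rw [mul_sum]
      calc _ ≤ ∑ _x : X, Fintype.card Ω * Fintype.card (Fin T → Y) :=
            sum_le_sum fun x _ => h2 x
        _ = _ := by rw [sum_const, card_univ, smul_eq_mul]
    generalize ∑ x : X, ∑ ω : Ω, ∑ y : Fin T → Y, (if ¬ F ω (no y k x) = true then 1 else 0) = S2
      at h6 h7
    generalize ∑ ω : Ω, ∑ y : Fin T → Y, (if ¬ F ω (c y (k + 1)) = false then 1 else 0) = S3
      at h3 h6
    generalize ∑ x : X, ∑ ω : Ω, ∑ y : Fin T → Y, (if x ∈ BX ω k y then 1 else 0) = S4 at h4 h6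
    generalize ∑ ω : Ω, ∑ y : Fin T → Y, (if y k ∈ BY ω k y then 1 else 0) = S5 at h5 h6
    clear_value P1
    generalize Fintype.card Ω * Fintype.card (Fin T → Y) = V at h3 h4 h5 h6 h7 ⊢
    generalize Fintype.card X = cX at h4 h6 h7 hXpos
    refine Nat.le_of_mul_le_mul_left ?_ (Nat.mul_pos (show 0 < 4 by norm_num) hXpos)
    have k3 : cX * (8 * S3) ≤ cX * (3 * V) := Nat.mul_le_mul_left _ h3
    have k5 : cX * (16 * S5) ≤ cX * V := Nat.mul_le_mul_left _ h5
    nlinarith [h6, h7, k3, k5, h4]
  -- the sum over the scales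
  have htot : ∑ k : Fin T, ∑ ω : Ω, ∑ y : Fin T → Y,
      (if lf ω (c y (k + 1)) = lf ω (c y k) then 0 else 1) ≤
      (m - 1) * (Fintype.card Ω * Fintype.card (Fin T → Y)) := by
    have g1 : ∀ ω y, ∑ k : Fin T, (if lf ω (c y (k + 1)) = lf ω (c y k) then 0 else 1) ≤ m - 1 := by
      intro ω y
      have g2 := changes (fun k => lf ω (c y k)) T (fun k hk => hmono ω y ⟨k, hk⟩)
      have g3 := hlt ω (c y T)
      rw [Fin.sum_univ_eq_sum_range (fun k => if lf ω (c y (k + 1)) = lf ω (c y k) then 0 else 1) T]
      have g5 : (∑ k ∈ range T, if lf ω (c y (k + 1)) = lf ω (c y k) then 0 else 1) ≤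
        lf ω (c y T) := le_trans (Nat.le_add_right _ _) g2
      omega
    rw [sum_comm]
    calc _ = ∑ ω : Ω, ∑ y : Fin T → Y, ∑ k : Fin T,
          (if lf ω (c y (k + 1)) = lf ω (c y k) then 0 else 1) :=
          sum_congr rfl fun ω _ => sum_comm
      _ ≤ ∑ _ω : Ω, ∑ _y : Fin T → Y, (m - 1) :=
          sum_le_sum fun ω _ => sum_le_sum fun y _ => g1 ω y
      _ = _ := by
          simp only [sum_const, card_univ, smul_eq_mul]
          ring
  have hfin : T * (Fintype.card Ω * Fintype.card (Fin T → Y)) ≤
      4 * (m - 1) * (Fintype.card Ω * Fintype.card (Fin T → Y)) := by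
    calc T * (Fintype.card Ω * Fintype.card (Fin T → Y))
        = ∑ _k : Fin T, Fintype.card Ω * Fintype.card (Fin T → Y) := by
          rw [sum_const, card_univ, Fintype.card_fin, smul_eq_mul]
      _ ≤ ∑ k : Fin T, 4 * ∑ ω : Ω, ∑ y : Fin T → Y,
          (if lf ω (c y (k + 1)) = lf ω (c y k) then 0 else 1) := sum_le_sum fun k _ => hone k
      _ = 4 * ∑ k : Fin T, ∑ ω : Ω, ∑ y : Fin T → Y,
          (if lf ω (c y (k + 1)) = lf ω (c y k) then 0 else 1) := by rw [mul_sum]
      _ ≤ 4 * ((m - 1) * (Fintype.card Ω * Fintype.card (Fin T → Y))) :=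
          Nat.mul_le_mul_left _ htot
      _ = _ := by ring
  exact Nat.le_of_mul_le_mul_right hfin (Nat.mul_pos hΩpos hZpos)

end Pool.Agent.N631.FT
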