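import Pool.Agent.N631.FT.Asm

/-!
# Programs with few tests and circuits with few non-monotone gates: final form (helper631)
-/

open scoped Classical
open Finset

namespace Pool.Agent.N631.FT

open H589DT

theorem const_mem (V W : Type) (d R : ℕ) (c : ℝ) : (fun _ => c) ∈ dInputs V W d R :=
  Or.inr ⟨c, rfl⟩

/-- the bound for programs gives the bound for circuits -/
theorem circuits_of_programs {d R N μ s : ℕ} {ε : ℝ}
    (h : ∀ (Ω : Type) [Fintype Ω] [Nonempty Ω] (S m : Ω → ℕ)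
        (F : Ω → DGame (Fin N) (Fin N) d R → Bool),
      (∀ ω, TProg (dInputs (Fin N) (Fin N) d R) [] (S ω) (m ω) (F ω)) → (∀ ω, m ω ≤ μ) →
      (∀ I, DNo ε I → 3 * Fintype.card Ω ≤ 4 * (univ.filter fun ω => F ω I = true).card) →
      (∀ I, DYes I → 3 * Fintype.card Ω ≤ 4 * (univ.filter fun ω => F ω I = false).card) →
      ∃ ω, s ≤ S ω)
    (Ω : Type) [Fintype Ω] [Nonempty Ω] (l : Ω → List (DGame (Fin N) (Fin N) d R → ℝ))
    (κ : Ω → ℕ) (hl : ∀ ω, NProg (dInputs (Fin N) (Fin N) d R) (l ω) (κ ω))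
    (hκ : ∀ ω, 2 * κ ω ≤ μ) (hdec : DDecides ε l) : ∃ ω, s ≤ (l ω).length := by
  obtain ⟨f, hf, hI⟩ := hdec
  refine h Ω (fun ω => (l ω).length) (fun ω => κ ω * 2) (fun ω x => decide (1 ≤ f ω x))
    (fun ω => NProg.toTProg (const_mem _ _ _ _) (hl ω) (hf ω) 1)
    (fun ω => by rw [mul_comm]; exact hκ ω) ?_ ?_
  · intro I hI1
    have h1 := (hI I).1 hI1
    have e : (univ.filter fun ω => decide (1 ≤ f ω I) = true) =
        univ.filter fun r => 1 ≤ f r I := by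
      apply filter_congr
      intro ω _
      rw [decide_eq_true_eq]
    rw [e]
    exact h1
  · intro I hI1
    have h1 := (hI I).2 hI1
    have e : (univ.filter fun ω => decide (1 ≤ f ω I) = false) =
        univ.filter fun r => f r I < 1 := by
      apply filter_congr
      intro ω _
      rw [decide_eq_false_iff_not, not_le]
    rw [e]
    exact h1

/-- the choice of `L` for quasipolynomial bounds -/
theorem choose_log (C k N μ : ℕ) (hk : 2 ≤ k) (hμ : 1 ≤ μ) (hN : 2 ^ (C + 2) ≤ N)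
    (h : 100 * k * μ * (Nat.log 2 (Nat.log 2 N) + 1) ≤ Nat.log 2 N) :
    C * μ ≤ (Nat.log 2 N) ^ k ∧ ((Nat.log 2 N) ^ k) ^ (100 * μ) ≤ N := by
  have hN0 : N ≠ 0 := by
    have : 0 < 2 ^ (C + 2) := by positivity
    omega
  have hpow : 2 ^ Nat.log 2 N ≤ N := Nat.pow_log_le_self 2 hN0
  have hC : C + 2 ≤ Nat.log 2 N := (Nat.le_log_iff_pow_le (by norm_num) hN0).2 hN
  generalize Nat.log 2 N = ℓ at h hpow hC ⊢
  have hμℓ : μ ≤ ℓ := by
    calc μ = 1 * μ * 1 := by ring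
      _ ≤ 100 * k * μ * (Nat.log 2 ℓ + 1) :=
          Nat.mul_le_mul (Nat.mul_le_mul_right _ (by omega)) (by omega)
      _ ≤ ℓ := h
  constructor
  · calc C * μ ≤ ℓ * ℓ := Nat.mul_le_mul (by omega) hμℓ
      _ = ℓ ^ 2 := by ring
      _ ≤ ℓ ^ k := Nat.pow_le_pow_right (by omega) hk
  · have h1 : ℓ ≤ 2 ^ (Nat.log 2 ℓ + 1) := (Nat.lt_pow_succ_log_self (by norm_num) ℓ).le
    calc (ℓ ^ k) ^ (100 * μ) = ℓ ^ (100 * k * μ) := by rw [← pow_mul]; congr 1; ring
      _ ≤ (2 ^ (Nat.log 2 ℓ + 1)) ^ (100 * k * μ) := Nat.pow_le_pow_left h1 _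
      _ = 2 ^ (100 * k * μ * (Nat.log 2 ℓ + 1)) := by rw [← pow_mul]; congr 1; ring
      _ ≤ 2 ^ ℓ := Nat.pow_le_pow_right (by norm_num) h
      _ ≤ N := hpow

end Pool.Agent.N631.FT
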