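import Pool.Agent.N631.FT.Model

/-!
# Programs with tests: the leaves are monotone, and one scale (helper631)
-/

open scoped Classical
open Finset

namespace Pool.Agent.N631.FT

open H630VC (Prog Mono2)

/-- the functions computed by circuits of monotone gates are monotone -/
theorem prog_mono {I : Type} {inp : Set (I → ℝ)} {l : List (I → ℝ)} (h : Prog inp l) {x x' : I}
    (hx : ∀ g ∈ inp, g x ≤ g x') : ∀ f ∈ l, f x ≤ f x' := by
  induction h with
  | nil => intro f hf; simp at hf
  | input _ hf ih =>
    intro f hf'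
    rcases List.mem_cons.1 hf' with rfl | h
    · exact hx _ hf
    · exact ih f h
  | gate _ hφ hf hg ih =>
    intro f hf'
    rcases List.mem_cons.1 hf' with rfl | h
    · exact hφ _ _ _ _ (ih _ hf) (ih _ hg)
    · exact ih f h

/-- the rank is at most the number of comparisons -/
theorem rank_le {w : ℕ} (b : Fin w → Bool) : rank b ≤ w := by
  unfold rank
  exact (card_le_univ _).trans (by rw [Fintype.card_fin])

/-- the rank is strictly monotone -/
theorem rank_lt {w : ℕ} {b b' : Fin w → Bool} (h : ∀ i, b i = true → b' i = true)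
    (hne : b ≠ b') : rank b < rank b' := by
  unfold rank
  apply card_lt_card
  rw [ssubset_iff_of_subset (fun i hi => mem_filter.2 ⟨mem_univ _, h i (mem_filter.1 hi).2⟩)]
  by_contra hcon
  push Not at hcon
  apply hne
  funext i
  by_cases h1 : b' i = true
  · have := (mem_filter.1 (hcon i (mem_filter.2 ⟨mem_univ _, h1⟩))).2
    rw [this, h1]
  · by_cases h2 : b i = true
    · exact absurd (h i h2) h1
    · rw [Bool.eq_false_of_not_eq_true h1, Bool.eq_false_of_not_eq_true h2]

/-- sums of positive numbers -/
theorem sum_ge {w : ℕ} (r : ℕ → ℕ) (hr : ∀ i, 1 ≤ r i) (k : ℕ) (hk : k ≤ w) :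
    w + r k ≤ ∑ i ∈ range (w + 1), r i := by
  have hk' : k ∈ range (w + 1) := mem_range.2 (by omega)
  rw [← add_sum_erase _ _ hk', add_comm]
  apply Nat.add_le_add_left
  calc w = ∑ _i ∈ (range (w + 1)).erase k, 1 := by
        rw [sum_const, card_erase_of_mem hk', card_range, smul_eq_mul, mul_one]
        omega
    _ ≤ _ := sum_le_sum fun i _ => hr i

theorem bits_mono {I : Type} {inp : Set (I → ℝ)} {l : List (I → ℝ)} (hl : Prog inp l) {w : ℕ}
    {f : Fin w → I → ℝ} {θ : Fin w → ℝ} (hf : ∀ i, f i ∈ l) {x x' : I}
    (hx : ∀ g ∈ inp, g x ≤ g x') (i : Fin w) (h : bits f θ x i = true) :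
    bits f θ x' i = true := by
  unfold bits at h ⊢
  rw [decide_eq_true_eq] at h ⊢
  exact h.trans (prog_mono hl hx (f i) (hf i))

/-- the phases of a program with tests and one scale -/
theorem step {I : Type} {inp : Set (I → ℝ)} {l : List (I → ℝ)} {s m : ℕ} {F : I → Bool}
    (h : TProg inp l s m F) (hl : Prog inp l) :
    ∃ lf : I → ℕ, (∀ x, lf x < m) ∧
      (∀ x x', (∀ g ∈ inp, g x ≤ g x') → lf x ≤ lf x' ∧ (lf x' = lf x → F x' = F x)) ∧
      ∀ (X Y : Type) [Fintype X] [Fintype Y] (K S : ℕ) (nX : X → I) (yY : Y → I) (i0 : I),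
        (∀ x, ∀ g ∈ inp, g i0 ≤ g (nX x)) → (∀ y, ∀ g ∈ inp, g i0 ≤ g (yY y)) →
        l.length + s ≤ S →
        (∀ l', Prog inp l' → l'.length ≤ S → ∀ f ∈ l', ∀ θ : ℝ,
          K * (univ.filter fun x => θ ≤ f (nX x)).card ≤ Fintype.card X ∨
          K * (univ.filter fun y => f (yY y) < θ).card ≤ Fintype.card Y) →
        ∃ (BX : Finset X) (BY : Finset Y), K * BX.card ≤ (m - 1) * Fintype.card X ∧
          K * BY.card ≤ (m - 1) * Fintype.card Y ∧
          ∀ x, x ∉ BX → ∀ y, y ∉ BY → lf (yY y) = lf i0 → lf (nX x) = lf i0 := by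
  induction h with
  | answer b =>
    refine ⟨fun _ => 0, fun _ => Nat.one_pos, fun _ _ _ => ⟨le_rfl, fun _ => rfl⟩, ?_⟩
    intro X Y _ _ K S nX yY i0 _ _ _ _
    exact ⟨∅, ∅, by simp, by simp, fun _ _ _ _ _ => rfl⟩
  | input hf _ ih =>
    obtain ⟨lf, h2, h3, h4⟩ := ih (Prog.input hl hf)
    refine ⟨lf, h2, h3, ?_⟩
    intro X Y _ _ K S nX yY i0 hX hY hS hd
    refine h4 X Y K S nX yY i0 hX hY ?_ hd
    rw [List.length_cons]
    omega
  | gate hφ hf hg _ ih =>
    obtain ⟨lf, h2, h3, h4⟩ := ih (Prog.gate hl hφ hf hg)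
    refine ⟨lf, h2, h3, ?_⟩
    intro X Y _ _ K S nX yY i0 hX hY hS hd
    refine h4 X Y K S nX yY i0 hX hY ?_ hd
    rw [List.length_cons]
    omega
  | @tests l w f θ t s r F hf hr ht _ ih =>
    choose lf' a2 a3 a4 using fun b => ih b hl
    set lf : I → ℕ := fun x => ∑ i ∈ range (rank (bits f θ x)), r i + lf' (bits f θ x) x with hlf
    have hlt : ∀ x x', (∀ g ∈ inp, g x ≤ g x') → bits f θ x ≠ bits f θ x' → lf x < lf x' := by
      intro x x' hx hne
      have h1 := rank_lt (fun i => bits_mono hl hf hx i) hne
      calc lf x < ∑ i ∈ range (rank (bits f θ x)), r i + r (rank (bits f θ x)) :=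
            Nat.add_lt_add_left (a2 _ x) _
        _ = ∑ i ∈ range (rank (bits f θ x) + 1), r i := (sum_range_succ _ _).symm
        _ ≤ ∑ i ∈ range (rank (bits f θ x')), r i :=
            sum_le_sum_of_subset (range_subset_range.2 h1)
        _ ≤ lf x' := Nat.le_add_right _ _
    have heq : ∀ x x', bits f θ x' = bits f θ x →
        lf x' = ∑ i ∈ range (rank (bits f θ x)), r i + lf' (bits f θ x) x' := by
      intro x x' hxx
      rw [hlf]
      show ∑ i ∈ range (rank (bits f θ x')), r i + lf' (bits f θ x') x' = _
      rw [hxx]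
    refine ⟨lf, ?_, ?_, ?_⟩
    · intro x
      have h1 := rank_le (bits f θ x)
      calc lf x < ∑ i ∈ range (rank (bits f θ x)), r i + r (rank (bits f θ x)) :=
            Nat.add_lt_add_left (a2 _ x) _
        _ = ∑ i ∈ range (rank (bits f θ x) + 1), r i := (sum_range_succ _ _).symm
        _ ≤ ∑ i ∈ range (w + 1), r i :=
            sum_le_sum_of_subset (range_subset_range.2 (by omega))
    · intro x x' hx
      by_cases hb : bits f θ x = bits f θ x'
      · have e1 := heq x x' hb.symm
        have e2 := heq x x rfl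
        have e3 := a3 (bits f θ x) x x' hx
        rw [e1, e2]
        refine ⟨Nat.add_le_add_left e3.1 _, fun he => ?_⟩
        show F (bits f θ x') x' = F (bits f θ x) x
        rw [← hb]
        exact e3.2 (by omega)
      · have h1 := hlt x x' hx hb
        exact ⟨h1.le, fun he => absurd he (ne_of_gt h1)⟩
    · intro X Y _ _ K S nX yY i0 hX hY hS hd
      have hsum := sum_ge r hr (rank (bits f θ i0)) (rank_le _)
      have hr0 := hr (rank (bits f θ i0))
      by_cases hc : ∃ i, bits f θ i0 i = false ∧
          K * (univ.filter fun y => f i (yY y) < θ i).card ≤ Fintype.card Y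
      · obtain ⟨i, hi, hi2⟩ := hc
        have hw : 1 ≤ w := by
          have := i.2
          omega
        refine ⟨∅, univ.filter fun y => f i (yY y) < θ i, by simp, ?_, ?_⟩
        · calc _ ≤ Fintype.card Y := hi2
            _ = 1 * Fintype.card Y := (one_mul _).symm
            _ ≤ _ := Nat.mul_le_mul_right _ (by omega)
        · intro x _ y hy hxy
          exfalso
          have hy2 : θ i ≤ f i (yY y) := by
            by_contra hcon
            exact hy (mem_filter.2 ⟨mem_univ _, not_le.1 hcon⟩)
          have hne : bits f θ i0 ≠ bits f θ (yY y) := by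
            intro he
            have h1 := congrFun he i
            rw [hi] at h1
            unfold bits at h1
            rw [decide_eq_true hy2] at h1
            exact Bool.false_ne_true h1
          exact absurd hxy (ne_of_gt (hlt i0 (yY y) (hY y) hne))
      · push Not at hc
        obtain ⟨BX, BY, c1, c2, c3⟩ := a4 (bits f θ i0) X Y K S nX yY i0 hX hY
          ((Nat.add_le_add_left (ht _) _).trans hS) hd
        have hfew : ∀ i, bits f θ i0 i = false →
            K * (univ.filter fun x => θ i ≤ f i (nX x)).card ≤ Fintype.card X := by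
          intro i hi
          rcases hd l hl (by omega) (f i) (hf i) (θ i) with h | h
          · exact h
          · exact absurd h (not_le.2 (hc i hi))
        refine ⟨BX ∪ (univ.filter fun i => bits f θ i0 i = false).biUnion
          fun i => univ.filter fun x => θ i ≤ f i (nX x), BY, ?_, ?_, ?_⟩
        · calc K * (BX ∪ (univ.filter fun i => bits f θ i0 i = false).biUnion
              fun i => univ.filter fun x => θ i ≤ f i (nX x)).card
                ≤ K * (BX.card + ∑ i ∈ univ.filter (fun i => bits f θ i0 i = false),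
                    (univ.filter fun x => θ i ≤ f i (nX x)).card) :=
                  Nat.mul_le_mul_left _ ((card_union_le _ _).trans
                    (Nat.add_le_add_left card_biUnion_le _))
              _ = K * BX.card + ∑ i ∈ univ.filter (fun i => bits f θ i0 i = false),
                    K * (univ.filter fun x => θ i ≤ f i (nX x)).card := by
                  rw [mul_add, mul_sum]
              _ ≤ (r (rank (bits f θ i0)) - 1) * Fintype.card X +
                    ∑ _i ∈ univ.filter (fun i => bits f θ i0 i = false), Fintype.card X :=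
                  Nat.add_le_add c1 (sum_le_sum fun i hi => hfew i (mem_filter.1 hi).2)
              _ ≤ (r (rank (bits f θ i0)) - 1) * Fintype.card X + w * Fintype.card X := by
                  rw [sum_const, smul_eq_mul]
                  refine Nat.add_le_add_left (Nat.mul_le_mul_right _ ?_) _
                  exact (card_le_univ _).trans (by rw [Fintype.card_fin])
              _ = (r (rank (bits f θ i0)) - 1 + w) * Fintype.card X := by ring
              _ ≤ _ := Nat.mul_le_mul_right _ (by omega)
        · exact c2.trans (Nat.mul_le_mul_right _ (by omega))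
        · intro x hx y hy hxy
          rw [mem_union, not_or] at hx
          -- the tests have the same results on `i0` and on `nX x`
          have hbx : bits f θ (nX x) = bits f θ i0 := by
            funext i
            by_cases hi : bits f θ i0 i = true
            · rw [hi]
              exact bits_mono hl hf (hX x) i hi
            · have hi' := Bool.eq_false_of_not_eq_true hi
              rw [hi']
              by_contra hcon
              have h1 : bits f θ (nX x) i = true := Bool.eq_true_of_not_eq_false hcon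
              unfold bits at h1
              rw [decide_eq_true_eq] at h1
              exact hx.2 (mem_biUnion.2 ⟨i, mem_filter.2 ⟨mem_univ _, hi'⟩,
                mem_filter.2 ⟨mem_univ _, h1⟩⟩)
          have hby : bits f θ (yY y) = bits f θ i0 := by
            by_contra hcon
            exact absurd hxy (ne_of_gt (hlt i0 (yY y) (hY y) (Ne.symm hcon)))
          have e1 := heq i0 (nX x) hbx
          have e2 := heq i0 (yY y) hby
          have e3 := heq i0 i0 rfl
          have e4 := c3 x hx.1 y hy (by omega)
          omega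

/-- members of lists that agree on a set of instances -/
theorem agree_mem {I : Type} {D : Set I} {l l' : List (I → ℝ)}
    (h : List.Forall₂ (fun f f' : I → ℝ => ∀ x ∈ D, f x = f' x) l l') {f : I → ℝ} (hf : f ∈ l) :
    ∃ f' ∈ l', ∀ x ∈ D, f x = f' x := by
  induction h with
  | nil => simp at hf
  | cons h1 _ ih =>
    rcases List.mem_cons.1 hf with rfl | h
    · exact ⟨_, List.mem_cons_self, h1⟩
    · obtain ⟨f', h2, h3⟩ := ih h
      exact ⟨f', List.mem_cons_of_mem _ h2, h3⟩

/-- constants may be read -/
theorem consts {I : Type} {inp : Set (I → ℝ)} (hc : ∀ c : ℝ, (fun _ : I => c) ∈ inp) {J : Type}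
    (ψ : List J) (a : J → ℝ) {l : List (I → ℝ)} {s m : ℕ} {F : I → Bool}
    (h : TProg inp (ψ.map (fun j _ => a j) ++ l) s m F) :
    TProg inp l (s + ψ.length) m F := by
  induction ψ generalizing s with
  | nil => simpa using h
  | cons j ψ ih =>
    have h1 : TProg inp (ψ.map (fun j _ => a j) ++ l) (s + 1) m F := by
      refine TProg.input (hc (a j)) ?_
      exact h
    have h2 := ih h1
    rw [List.length_cons]
    have e : s + (ψ.length + 1) = s + 1 + ψ.length := by omega
    rw [e]
    exact h2

/-- lists of gates of a layer agree with constants -/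
theorem layer_agree {I : Type} {D : Set I} {l l' : List (I → ℝ)} {J : Type} (ψ : List J)
    (u : J → I → ℝ) (a : J → ℝ) (hu : ∀ j, ∀ x ∈ D, u j x = a j)
    (h : List.Forall₂ (fun f f' : I → ℝ => ∀ x ∈ D, f x = f' x) l l') :
    List.Forall₂ (fun f f' : I → ℝ => ∀ x ∈ D, f x = f' x)
      (ψ.map (fun j x => u j x) ++ l) (ψ.map (fun j _ => a j) ++ l') := by
  induction ψ with
  | nil => exact h
  | cons j ψ ih => exact List.Forall₂.cons (hu j) ih

/-- from circuits with layers of non-monotone gates to programs with tests, with a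
continuation -/
theorem cont {I : Type} {inp : Set (I → ℝ)} (hc : ∀ c : ℝ, (fun _ : I => c) ∈ inp)
    {l : List (I → ℝ)} {κ : ℕ} (h : NProg inp l κ) :
    ∀ (s0 m0 : ℕ) (G : I → Bool), 1 ≤ m0 →
      (∀ (D : Set I) (l' : List (I → ℝ)),
        List.Forall₂ (fun f f' : I → ℝ => ∀ x ∈ D, f x = f' x) l l' →
        ∃ F, TProg inp l' s0 m0 F ∧ ∀ x ∈ D, F x = G x) →
      ∃ F, TProg inp [] (l.length + s0) (κ * m0) F ∧ ∀ x, F x = G x := by
  induction h with
  | nil =>
    intro s0 m0 G _ hk
    obtain ⟨F, h1, h2⟩ := hk Set.univ [] List.Forall₂.nil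
    refine ⟨F, ?_, fun x => h2 x (Set.mem_univ _)⟩
    simpa using h1
  | @input l κ f _ hf ih =>
    intro s0 m0 G hm0 hk
    obtain ⟨F, h1, h2⟩ := ih (s0 + 1) m0 G hm0 (fun D l' hl' => by
      obtain ⟨F, h1, h2⟩ := hk D (f :: l') (List.Forall₂.cons (fun _ _ => rfl) hl')
      exact ⟨F, TProg.input hf h1, h2⟩)
    refine ⟨F, ?_, h2⟩
    have e : (f :: l).length + s0 = l.length + (s0 + 1) := by rw [List.length_cons]; omega
    rw [e]
    exact h1
  | @gate l κ φ f g _ hφ hf hg ih =>
    intro s0 m0 G hm0 hk
    obtain ⟨F, h1, h2⟩ := ih (s0 + 1) m0 G hm0 (fun D l' hl' => by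
      obtain ⟨f', hf', ef⟩ := agree_mem hl' hf
      obtain ⟨g', hg', eg⟩ := agree_mem hl' hg
      obtain ⟨F, h1, h2⟩ := hk D ((fun x => φ (f' x) (g' x)) :: l')
        (List.Forall₂.cons (fun x hx => by rw [ef x hx, eg x hx]) hl')
      exact ⟨F, TProg.gate hφ hf' hg' h1, h2⟩)
    refine ⟨F, ?_, h2⟩
    have e : ((fun x => φ (f x) (g x)) :: l).length + s0 = l.length + (s0 + 1) := by
      rw [List.length_cons]; omega
    rw [e]
    exact h1
  | @layer l κ w f θ ψ _ hf ih =>
    intro s0 m0 G hm0 hk
    obtain ⟨F, h1, h2⟩ := ih (s0 + ψ.length) ((w + 1) * m0) G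
      (Nat.mul_pos (Nat.succ_pos _) hm0) (fun D l' hl' => by
      choose f' hf' ef using fun i => agree_mem hl' (hf i)
      have hchild : ∀ b : Fin w → Bool, ∃ Fb, TProg inp l' (s0 + ψ.length) m0 Fb ∧
          ∀ x ∈ D ∩ {x | bits f' θ x = b}, Fb x = G x := by
        intro b
        obtain ⟨Fb, g1, g2⟩ := hk (D ∩ {x | bits f' θ x = b})
          (ψ.map (fun h _ => h b) ++ l')
          (layer_agree ψ (fun h x => h (bits f θ x)) (fun h => h b) (by
            intro h x hx
            have e1 : bits f θ x = bits f' θ x := by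
              funext i
              unfold bits
              rw [ef i x hx.1]
            show h (bits f θ x) = h b
            rw [e1, hx.2]) (hl'.imp fun _ _ h x hx => h x hx.1))
        exact ⟨Fb, consts hc ψ (fun h => h b) g1, g2⟩
      choose Fb g1 g2 using hchild
      refine ⟨fun x => Fb (bits f' θ x) x, ?_, fun x hx => g2 _ x ⟨hx, rfl⟩⟩
      have h3 := TProg.tests f' θ (fun _ => s0 + ψ.length) (s0 + ψ.length) (fun _ => m0) Fb hf'
        (fun _ => hm0) (fun _ => le_rfl) g1
      rwa [sum_const, card_range, smul_eq_mul] at h3)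
    refine ⟨F, ?_, h2⟩
    have e : (ψ.map (fun h x => h (bits f θ x)) ++ l).length + s0 =
        l.length + (s0 + ψ.length) := by
      rw [List.length_append, List.length_map]; omega
    have e2 : κ * (w + 1) * m0 = κ * ((w + 1) * m0) := by ring
    rw [e, e2]
    exact h1

/-- circuits with layers of non-monotone gates are programs with tests -/
theorem NProg.toTProg {I : Type} {inp : Set (I → ℝ)} (hc : ∀ c : ℝ, (fun _ : I => c) ∈ inp)
    {l : List (I → ℝ)} {κ : ℕ} (h : NProg inp l κ) {f : I → ℝ} (hf : f ∈ l) (θ : ℝ) :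
    TProg inp [] l.length (κ * 2) (fun x => decide (θ ≤ f x)) := by
  obtain ⟨F, h1, h2⟩ := cont hc h 0 2 (fun x => decide (θ ≤ f x)) (by norm_num) (fun D l' hl' => by
    obtain ⟨f', hf', ef⟩ := agree_mem hl' hf
    have h3 := TProg.tests (inp := inp) (l := l') (fun _ : Fin 1 => f') (fun _ => θ) (fun _ => 0) 0
      (fun _ => 1) (fun b _ => b 0) (fun _ => hf') (fun _ => le_rfl) (fun _ => le_rfl)
      (fun b => TProg.answer (b 0))
    refine ⟨_, h3, ?_⟩
    intro x hx
    show decide (θ ≤ f' x) = decide (θ ≤ f x)
    rw [ef x hx])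
  have e : F = fun x => decide (θ ≤ f x) := funext h2
  rw [← e]
  exact h1

end Pool.Agent.N631.FT
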