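import Pool.Agent.N631.FT.HO2
import Pool.Agent.N631.FT.Step
import Pool.Agent.N631.FT.Chain

/-!
# The lower bound for programs with tests on a host with several scales, abstract form (helper631)
-/

open scoped Classical
open Finset

namespace Pool.Agent.N631.FT

open H630VC (Prog marked)
open H589DT

/-- the first `t` scales are filled -/
noncomputable def pre {U E Λ A : Type} [Fintype U] [Fintype E] [Fintype Λ] [Fintype A]
    (G : CGraph U E Λ) {T M Q : ℕ} (y : Fin T → Smp (U × A) Λ M Q) (t : ℕ) (j : Fin T) :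
    Finset (E × A × A) :=
  if (j : ℕ) < t then hT G (marked (y j)) else ∅

theorem pre_self {U E Λ A : Type} [Fintype U] [Fintype E] [Fintype Λ] [Fintype A]
    (G : CGraph U E Λ) {T M Q : ℕ} (y : Fin T → Smp (U × A) Λ M Q) (k : Fin T) :
    Function.update (pre G y k) k ∅ = pre G y k := by
  funext j
  by_cases h : j = k
  · subst h
    rw [Function.update_self]
    unfold pre
    rw [if_neg (lt_irrefl _)]
  · rw [Function.update_of_ne h]

theorem pre_succ {U E Λ A : Type} [Fintype U] [Fintype E] [Fintype Λ] [Fintype A]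
    (G : CGraph U E Λ) {T M Q : ℕ} (y : Fin T → Smp (U × A) Λ M Q) (k : Fin T) :
    Function.update (pre G y k) k (hT G (marked (y k))) = pre G y (k + 1) := by
  funext j
  by_cases h : j = k
  · subst h
    rw [Function.update_self]
    unfold pre
    rw [if_pos (Nat.lt_succ_self _)]
  · rw [Function.update_of_ne h]
    unfold pre
    have h' : (j : ℕ) ≠ k := fun e => h (Fin.ext e)
    by_cases h1 : (j : ℕ) < k
    · rw [if_pos h1, if_pos (by omega)]
    · rw [if_neg h1, if_neg (by omega)]

theorem pre_update {U E Λ A : Type} [Fintype U] [Fintype E] [Fintype Λ] [Fintype A]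
    (G : CGraph U E Λ) {T M Q : ℕ} (y : Fin T → Smp (U × A) Λ M Q) (k : Fin T)
    (z : Smp (U × A) Λ M Q) : pre G (Function.update y k z) k = pre G y k := by
  funext j
  unfold pre
  by_cases h1 : (j : ℕ) < k
  · rw [if_pos h1, if_pos h1, Function.update_of_ne]
    rintro rfl
    exact lt_irrefl _ h1
  · rw [if_neg h1, if_neg h1]

theorem pre_mono {U E Λ A : Type} [Fintype U] [Fintype E] [Fintype Λ] [Fintype A]
    (G : CGraph U E Λ) {T M Q : ℕ} (y : Fin T → Smp (U × A) Λ M Q) (t : ℕ) (j : Fin T) :
    pre G y t j ⊆ pre G y (t + 1) j := by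
  unfold pre
  by_cases h1 : (j : ℕ) < t
  · rw [if_pos h1, if_pos (by omega)]
  · rw [if_neg h1]
    exact empty_subset _

/-- the lower bound for randomised programs with few tests, abstract form -/
theorem generic (hHD : S_HD) (hNC : S_NC) {U E Λ A : Type} [Fintype U] [Fintype E] [Fintype Λ]
    [Fintype A] [Nonempty A] (G : CGraph U E Λ) (L M Q K T μ : ℕ) (Fl : Local U Λ (2 * L))
    (hF : ∀ S ρ, Fl.C S ρ → G.SatOn S ρ) (hL : 1 ≤ L) (hM : 1 ≤ M) (hQ : 1 ≤ Q) (hμ : 1 ≤ μ)
    (hK : 16 * μ ≤ K) (hT0 : 4 * (μ - 1) < T)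
    (h1 : (2 * K + 1) * (8 * L * Q) ≤ Fintype.card A)
    (h2 : 8 * T * (Fintype.card U * Fintype.card A * Fintype.card Λ ^ 2 * M ^ 2) ≤ Q ^ 2)
    (h3 : 2 * K * 2 ^ L ≤ 8 ^ L)
    (h4 : K * 2 ^ L * (Fintype.card U * Fintype.card A * Fintype.card Λ + 1) ^ (2 * L) ≤ 2 ^ M)
    {I : Type} (inst : (Fin T → Finset (E × A × A)) → I) (inp : Set (I → ℝ))
    (hi : ∀ P k, HostInputs (fun H => inst (Function.update P k H)) inp)
    (hmo : ∀ P P' : Fin T → Finset (E × A × A), (∀ j, P j ⊆ P' j) →
      ∀ g ∈ inp, g (inst P) ≤ g (inst P'))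
    (Ω : Type) [Fintype Ω] [Nonempty Ω] (S m : Ω → ℕ) (F : Ω → I → Bool)
    (hp : ∀ ω, TProg inp [] (S ω) (m ω) (F ω)) (hmμ : ∀ ω, m ω ≤ μ)
    (hno : ∀ (P : Fin T → Finset (E × A × A)) (k : Fin T) (x : U → A), P k = hx G x →
      (∀ j, k < j → P j = ∅) →
      3 * Fintype.card Ω ≤ 4 * (univ.filter fun ω => F ω (inst P) = true).card)
    (hyes : ∀ (P : Fin T → Finset (E × A × A)) (Tj : Fin T → Finset ((U × A) × Λ)),
      (∀ j, NoConflict (Tj j)) → (∀ j, P j ⊆ hT G (Tj j)) →
      3 * Fintype.card Ω ≤ 4 * (univ.filter fun ω => F ω (inst P) = false).card) :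
    ∃ ω, 2 ^ L ≤ S ω := by
  by_contra hcon
  push Not at hcon
  have : NeZero Q := ⟨by omega⟩
  choose lf a2 a3 a4 using fun ω => step (hp ω) Prog.nil
  -- the dichotomy at each scale
  have key : ∀ (ω : Ω) (k : Fin T) (P : Fin T → Finset (E × A × A)),
      ∃ (BX : Finset (U → A)) (BY : Finset (Smp (U × A) Λ M Q)),
        K * BX.card ≤ (m ω - 1) * Fintype.card (U → A) ∧
        K * BY.card ≤ (m ω - 1) * Fintype.card (Smp (U × A) Λ M Q) ∧
        ∀ x, x ∉ BX → ∀ y, y ∉ BY →
          lf ω (inst (Function.update P k (hT G (marked y)))) =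
            lf ω (inst (Function.update P k ∅)) →
          lf ω (inst (Function.update P k (hx G x))) = lf ω (inst (Function.update P k ∅)) := by
    intro ω k P
    refine a4 ω (U → A) (Smp (U × A) Λ M Q) K (2 ^ L)
      (fun x => inst (Function.update P k (hx G x)))
      (fun y => inst (Function.update P k (hT G (marked y))))
      (inst (Function.update P k ∅)) ?_ ?_ ?_ ?_
    · intro x g hg
      refine hmo _ _ (fun j => ?_) g hg
      by_cases h : j = k
      · subst h
        rw [Function.update_self]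
        exact empty_subset _
      · rw [Function.update_of_ne h, Function.update_of_ne h]
    · intro x g hg
      refine hmo _ _ (fun j => ?_) g hg
      by_cases h : j = k
      · subst h
        rw [Function.update_self]
        exact empty_subset _
      · rw [Function.update_of_ne h, Function.update_of_ne h]
    · have := hcon ω
      rw [List.length_nil]
      omega
    · intro l' hl' hlen f hf θ
      refine hHD U E Λ A G L M Q K Fl hF hL hM hQ (by omega) h1 I
        (fun H => inst (Function.update P k H)) inp (hi P k) l' hl' f hf θ ?_ ?_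
      · exact (Nat.mul_le_mul_left _ hlen).trans h3
      · exact (Nat.mul_le_mul_right _ (Nat.mul_le_mul_left _ hlen)).trans h4
  choose BX BY b1 b2 b3 using key
  -- conflicts
  have hconf : 8 * T * (univ.filter fun y : Smp (U × A) Λ M Q => ¬ NoConflict (marked y)).card ≤
      Fintype.card (Smp (U × A) Λ M Q) := by
    have g1 : (univ.filter fun ω : Smp (U × A) Λ M Q => ¬ NoConflict (marked ω)).card * Q ^ 2 ≤
        Fintype.card U * Fintype.card A * Fintype.card Λ ^ 2 * M ^ 2 *
          Fintype.card (Smp (U × A) Λ M Q) := by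
      have g0 := hNC (U × A) Λ M Q hQ
      rw [Fintype.card_prod] at g0
      exact le_of_eq_of_le (congrArg (· * Q ^ 2) (cardFU _ _ _ _ _ _ fun _ => Iff.rfl))
        (g0.trans (le_of_eq (congrArg (Fintype.card U * Fintype.card A * Fintype.card Λ ^ 2 *
          M ^ 2 * ·) (cardFt _ _))))
    generalize Fintype.card (Smp (U × A) Λ M Q) = S at g1 ⊢
    generalize (univ.filter fun ω : Smp (U × A) Λ M Q => ¬ NoConflict (marked ω)).card = bad
      at g1 ⊢
    have g2 : 8 * T * bad * Q ^ 2 ≤ S * Q ^ 2 := by
      calc 8 * T * bad * Q ^ 2 = 8 * T * (bad * Q ^ 2) := by ring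
        _ ≤ 8 * T * (Fintype.card U * Fintype.card A * Fintype.card Λ ^ 2 * M ^ 2 * S) :=
            Nat.mul_le_mul_left _ g1
        _ = (8 * T * (Fintype.card U * Fintype.card A * Fintype.card Λ ^ 2 * M ^ 2)) * S := by
            ring
        _ ≤ Q ^ 2 * S := Nat.mul_le_mul_right _ h2
        _ = _ := by ring
    exact Nat.le_of_mul_le_mul_right g2 (by positivity)
  have hfin := chain_bound (Ω := Ω) (X := U → A) (Y := Smp (U × A) Λ M Q) (I := I) T μ K F lf
    (fun ω i => (a2 ω i).trans_le (hmμ ω)) (fun y t => inst (pre G y t))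
    (fun y k x => inst (Function.update (pre G y k) k (hx G x)))
    (fun ω y k x => (a3 ω _ _ (hmo _ _ (fun j => by
      by_cases h : j = k
      · subst h
        rw [Function.update_self]
        unfold pre
        rw [if_neg (lt_irrefl _)]
        exact empty_subset _
      · rw [Function.update_of_ne h]))).2)
    (fun ω y k => (a3 ω _ _ (hmo _ _ (fun j => pre_mono G y k j))).2)
    (fun ω y k => (a3 ω _ _ (hmo _ _ (fun j => pre_mono G y k j))).1)
    (fun ω k y => BX ω k (pre G y k)) (fun ω k y => BY ω k (pre G y k))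
    (fun ω k y x hxx hyy he => by
      have h := b3 ω k (pre G y k) x hxx (y k) hyy
      rw [pre_self, pre_succ] at h
      exact h he)
    (fun ω k y z => by simp only [pre_update])
    hK hμ (fun ω k y => (b1 ω k _).trans (Nat.mul_le_mul_right _ (Nat.sub_le_sub_right (hmμ ω) 1)))
    (fun ω k y => (b2 ω k _).trans (Nat.mul_le_mul_right _ (Nat.sub_le_sub_right (hmμ ω) 1)))
    (fun y k x => hno _ k x (by rw [Function.update_self]) (fun j hj => by
      rw [Function.update_of_ne (ne_of_gt hj)]
      unfold pre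
      rw [if_neg]
      exact not_lt.2 (le_of_lt hj)))
    (univ.filter fun y : Smp (U × A) Λ M Q => ¬ NoConflict (marked y)) hconf
    (fun y k hy => hyes _ (fun j => marked (y j))
      (fun j => by
        by_contra h0
        exact hy j (mem_filter.2 ⟨mem_univ _, h0⟩))
      (fun j => by
        unfold pre
        split_ifs
        · exact Subset.refl _
        · exact empty_subset _))
  omega

end Pool.Agent.N631.FT
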