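import Pool.Agent.H589R3.DT.Main

/-!
# Local consistency and monotone real circuits: the dichotomy with a small constant (helper631)

The theorems `t_FI` and `t_HO` of `Pool.Agent.H589R3.DT` with a parameter `b` in the place of `8`:
with clouds of size `b * 8 * L * Q` a gate is large for at most a fraction about `1 / (b - 1)` of
the positive tests, or it is large for nearly all negative tests.
-/

open scoped Classical
open Finset

namespace Pool.Agent.N631.FT

open H630VC (Prog marked)
open H589DT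

/-- few positive tests contain a critical set of given size -/
theorem card_crit_tr' {P Λ X : Type} [Fintype P] [Fintype Λ] [Fintype X] (hCC : S_CC) {L : ℕ}
    (C : ConsSystem P Λ (2 * L)) (M Q A b : ℕ)
    (tr : X → Finset P) (hL : 1 ≤ L) (hQ : 1 ≤ Q) (hA : b * (4 * (2 * L) * Q) ≤ A)
    (htr : ∀ α : Finset P, (univ.filter fun x => α ⊆ tr x).card * A ^ α.card ≤ Fintype.card X)
    (lam : C.T → ℝ) (hc : ClosedLev C M Q lam) (j : ℕ) (hj : j ≤ 2 * L) :
    (univ.filter fun x => ∃ α, α ⊆ tr x ∧ CritSet C lam α ∧ α.card = j).card * b ^ j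
      ≤ Fintype.card X := by
  set K : ℕ := 4 * (2 * L) * Q with hK
  have hKpos : 0 < K := by positivity
  have hWK : ∀ j ≤ 2 * L, (univ.filter fun α : Finset P => CritSet C lam α ∧ α.card = j).card
      ≤ K ^ j := fun j hj => hCC P Λ (2 * L) C M Q (by omega) hQ lam hc j hj
  clear_value K
  set W : Finset (Finset P) := univ.filter fun α : Finset P => CritSet C lam α ∧ α.card = j
    with hW
  have hWc : W.card ≤ K ^ j := hWK j hj
  have h1 : (univ.filter fun x => ∃ α, α ⊆ tr x ∧ CritSet C lam α ∧ α.card = j) ⊆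
      W.biUnion fun α => univ.filter fun x => α ⊆ tr x := by
    intro x hx
    obtain ⟨α, h2, h3, h4⟩ := (mem_filter.1 hx).2
    exact mem_biUnion.2 ⟨α, mem_filter.2 ⟨mem_univ _, h3, h4⟩, mem_filter.2 ⟨mem_univ _, h2⟩⟩
  have h2 : (W.biUnion fun α => univ.filter fun x => α ⊆ tr x).card * A ^ j
      ≤ K ^ j * Fintype.card X := by
    calc _ ≤ (∑ α ∈ W, (univ.filter fun x => α ⊆ tr x).card) * A ^ j :=
          Nat.mul_le_mul_right _ card_biUnion_le
      _ = ∑ α ∈ W, (univ.filter fun x => α ⊆ tr x).card * A ^ j := by rw [Finset.sum_mul]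
      _ ≤ ∑ α ∈ W, Fintype.card X := by
          refine Finset.sum_le_sum fun α hα => ?_
          have := htr α
          rwa [(mem_filter.1 hα).2.2] at this
      _ = W.card * Fintype.card X := by simp
      _ ≤ _ := Nat.mul_le_mul_right _ hWc
  have h3 : (univ.filter fun x => ∃ α, α ⊆ tr x ∧ CritSet C lam α ∧ α.card = j).card * (b * K) ^ j
      ≤ K ^ j * Fintype.card X :=
    (Nat.mul_le_mul (card_le_card h1) (Nat.pow_le_pow_left hA j)).trans h2
  have h4 : K ^ j * ((univ.filter fun x => ∃ α, α ⊆ tr x ∧ CritSet C lam α ∧ α.card = j).card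
      * b ^ j) ≤ K ^ j * Fintype.card X := by
    refine le_trans (le_of_eq ?_) h3
    rw [mul_pow]; ring
  exact Nat.le_of_mul_le_mul_left h4 (by positivity)

/-- an approximated function is large for few positive tests or large on most negative tests -/
theorem t_FI' (hCC : S_CC) {P Λ X : Type} [Fintype P] [Fintype Λ] [Fintype X] (L : ℕ)
    (C : ConsSystem P Λ (2 * L)) (M Q A b : ℕ) (tr : X → Finset P) (hL : 1 ≤ L) (hQ : 1 ≤ Q)
    (hb : 2 ≤ b) (hA : b * (4 * (2 * L) * Q) ≤ A)
    (htr : ∀ α : Finset P, (univ.filter fun x => α ⊆ tr x).card * A ^ α.card ≤ Fintype.card X)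
    (badP : Finset X) (badN : Finset (Smp P Λ M Q)) (fp : X → ℝ)
    (fn : Smp P Λ M Q → ℝ) (happ : Approx C M Q L tr badP badN fp fn) (θ : ℝ) :
    (b - 1) * (univ.filter fun x => θ ≤ fp x).card ≤ (b - 1) * badP.card + Fintype.card X ∨
      ∀ ω, ω ∉ badN → θ ≤ fn ω := by
  obtain ⟨lam, hc, hraw⟩ := happ
  by_cases h : Lev C lam ∅ θ
  · right
    intro ω hω
    have h1 := h ⟨∅, C.empty⟩ (by simp [pos])
    exact h1.trans (hraw.2 ω hω ⟨∅, C.empty⟩ (empty_subset _))
  · left
    have hsub : (univ.filter fun x => θ ≤ fp x) ⊆ badP ∪ (Finset.Ico 1 (L + 1)).biUnion fun j =>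
        univ.filter fun x => ∃ α, α ⊆ tr x ∧ CritSet C lam α ∧ α.card = j := by
      intro x hx
      have hx' := (mem_filter.1 hx).2
      rw [mem_union]
      by_cases hb : x ∈ badP
      · exact Or.inl hb
      · right
        obtain ⟨α, g1, g2, g3⟩ := hraw.1 x hb
        have g4 : Lev C lam α θ := fun β hβ => hx'.trans (g3 β hβ)
        obtain ⟨α', g5, g6, g7⟩ := exists_crit g4
        have g8 : α'.card ≠ 0 := by
          intro h0
          rw [card_eq_zero] at h0
          rw [h0] at g6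
          exact h g6
        have g9 := card_le_card g5
        exact mem_biUnion.2 ⟨α'.card, mem_Ico.2 ⟨by omega, by omega⟩,
          mem_filter.2 ⟨mem_univ _, α', g5.trans g1, g7, rfl⟩⟩
    have hkey : ∀ j ∈ Finset.Ico 1 (L + 1),
        (univ.filter fun x => ∃ α, α ⊆ tr x ∧ CritSet C lam α ∧ α.card = j).card
          ≤ Fintype.card X / b ^ j := by
      intro j hj
      rw [mem_Ico] at hj
      have := card_crit_tr' hCC C M Q A b tr hL hQ hA htr lam hc j (by omega)
      rw [Nat.le_div_iff_mul_le (by positivity)]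
      exact this
    have h1 : (univ.filter fun x => θ ≤ fp x).card ≤ badP.card + Fintype.card X / (b - 1) := by
      calc _ ≤ badP.card + ((Finset.Ico 1 (L + 1)).biUnion fun j =>
            univ.filter fun x => ∃ α, α ⊆ tr x ∧ CritSet C lam α ∧ α.card = j).card :=
            (card_le_card hsub).trans (card_union_le _ _)
        _ ≤ badP.card + ∑ j ∈ Finset.Ico 1 (L + 1), Fintype.card X / b ^ j :=
            Nat.add_le_add_left (card_biUnion_le.trans (Finset.sum_le_sum hkey)) _
        _ ≤ badP.card + Fintype.card X / (b - 1) :=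
            Nat.add_le_add_left (Nat.geom_sum_Ico_le hb _ _) _
    have h2 : (b - 1) * (Fintype.card X / (b - 1)) ≤ Fintype.card X := Nat.mul_div_le _ _
    calc _ ≤ (b - 1) * (badP.card + Fintype.card X / (b - 1)) := Nat.mul_le_mul_left _ h1
      _ = (b - 1) * badP.card + (b - 1) * (Fintype.card X / (b - 1)) := by ring
      _ ≤ _ := Nat.add_le_add_left h2 _

/-- the combination of the propagation through the circuit and `t_FI'` -/
theorem comb2 (hPR : S_PR) (hCC : S_CC) (hCT : S_CT) (P Λ X : Type) [Fintype P] [Fintype Λ]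
    [Fintype X] (L : ℕ)
    (C : ConsSystem P Λ (2 * L)) (M Q A K : ℕ) (tr : X → Finset P) (hL : 1 ≤ L) (hM : 1 ≤ M)
    (hQ : 1 ≤ Q) (hK : 4 ≤ K) (hA : (2 * K + 1) * (4 * (2 * L) * Q) ≤ A)
    (htr : ∀ α : Finset P,
      (univ.filter fun x => α ⊆ tr x).card * A ^ α.card ≤ Fintype.card X)
    (I : Type) (posI : X → I) (negI : Smp P Λ M Q → I) (inp : Set (I → ℝ))
    (hraw : ∀ g ∈ inp, ∃ lam : C.T → ℝ,
      Raw C M Q (2 * L) tr ∅ ∅ lam (fun x => g (posI x)) (fun ω => g (negI ω)))
    (l : List (I → ℝ)) (hl : Prog inp l) (f : I → ℝ) (hf : f ∈ l) (θ : ℝ)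
    (hs : 2 * K * l.length ≤ 8 ^ L)
    (hs' : K * l.length * (Fintype.card P * Fintype.card Λ + 1) ^ (2 * L) ≤ 2 ^ M) :
    K * (univ.filter fun x : X => θ ≤ f (posI x)).card ≤ Fintype.card X ∨
    K * (univ.filter fun ω : Smp P Λ M Q => f (negI ω) < θ).card ≤
      Fintype.card (Smp P Λ M Q) := by
  have hA8 : 8 * (4 * (2 * L) * Q) ≤ A :=
    le_trans (Nat.mul_le_mul_right _ (by omega)) hA
  obtain ⟨badP, badN, h1, h2, h3⟩ := hPR P Λ X L C M Q A tr hL hM hQ hA8 htr I
    posI negI inp hraw l hl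
  rcases t_FI' hCC L C M Q A (2 * K + 1) tr hL hQ (by omega) hA htr badP badN _ _ (h3 f hf) θ
    with h | h
  · left
    rw [Nat.add_sub_cancel] at h
    have hpos : 0 < 8 ^ L := by positivity
    generalize (univ.filter fun x : X => θ ≤ f (posI x)).card = N1 at h ⊢
    generalize Fintype.card X = N2 at h h1 ⊢
    generalize 8 ^ L = N3 at h1 hs hpos
    generalize badP.card = N4 at h h1
    generalize l.length = s at h1 hs
    have h6 : N3 * (2 * K * N4) ≤ N3 * N2 := by
      calc N3 * (2 * K * N4) = 2 * K * (N4 * N3) := by ring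
        _ ≤ 2 * K * (s * N2) := Nat.mul_le_mul_left _ h1
        _ = (2 * K * s) * N2 := by ring
        _ ≤ N3 * N2 := Nat.mul_le_mul_right _ hs
    have h5 : 2 * K * N4 ≤ N2 := Nat.le_of_mul_le_mul_left h6 hpos
    have h7 : 2 * (K * N1) ≤ 2 * N2 := by
      calc 2 * (K * N1) = 2 * K * N1 := by ring
        _ ≤ 2 * K * N4 + N2 := h
        _ ≤ N2 + N2 := Nat.add_le_add_right h5 _
        _ = 2 * N2 := by ring
    omega
  · right
    have hsub : (univ.filter fun ω : Smp P Λ M Q => f (negI ω) < θ) ⊆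
        badN := by
      intro ω hω
      rw [Finset.mem_filter] at hω
      by_contra hn
      exact absurd (h ω hn) (not_le.mpr hω.2)
    have hct := hCT P Λ (2 * L) C
    have h4 := card_le_card hsub
    have hpos : 0 < 2 ^ M := by positivity
    generalize (univ.filter fun ω : Smp P Λ M Q => f (negI ω) < θ).card = N1 at h4 ⊢
    generalize Fintype.card (Smp P Λ M Q) = N2 at h2 ⊢
    generalize (Fintype.card P * Fintype.card Λ + 1) ^ (2 * L) = W at hct hs'
    generalize Fintype.card C.T = W' at hct h2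
    generalize 2 ^ M = N3 at h2 hs' hpos
    generalize badN.card = N4 at h2 h4
    generalize l.length = s at h2 hs'
    have h6 : N3 * (K * N1) ≤ N3 * N2 := by
      calc N3 * (K * N1) = K * (N1 * N3) := by ring
        _ ≤ K * (N4 * N3) := Nat.mul_le_mul_left _ (Nat.mul_le_mul_right _ h4)
        _ ≤ K * (s * (W' * N2)) := Nat.mul_le_mul_left _ h2
        _ ≤ K * (s * (W * N2)) :=
            Nat.mul_le_mul_left _ (Nat.mul_le_mul_left _ (Nat.mul_le_mul_right _ hct))
        _ = (K * s * W) * N2 := by ring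
        _ ≤ N3 * N2 := Nat.mul_le_mul_right _ hs'
    exact Nat.le_of_mul_le_mul_left h6 hpos

/-- the same for every instance of the finiteness of the samples -/
theorem comb2' (hPR : S_PR) (hCC : S_CC) (hCT : S_CT) (P Λ X : Type) [Fintype P] [Fintype Λ]
    [Fintype X] (L : ℕ)
    (C : ConsSystem P Λ (2 * L)) (M Q A K : ℕ) (tr : X → Finset P) (hL : 1 ≤ L) (hM : 1 ≤ M)
    (hQ : 1 ≤ Q) (hK : 4 ≤ K) (hA : (2 * K + 1) * (4 * (2 * L) * Q) ≤ A)
    (htr : ∀ α : Finset P,
      (univ.filter fun x => α ⊆ tr x).card * A ^ α.card ≤ Fintype.card X)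
    (I : Type) (posI : X → I) (negI : Smp P Λ M Q → I) (inp : Set (I → ℝ))
    (hraw : ∀ g ∈ inp, ∃ lam : C.T → ℝ,
      Raw C M Q (2 * L) tr ∅ ∅ lam (fun x => g (posI x)) (fun ω => g (negI ω)))
    (l : List (I → ℝ)) (hl : Prog inp l) (f : I → ℝ) (hf : f ∈ l) (θ : ℝ)
    (i2 : Fintype (Smp P Λ M Q))
    (hs : 2 * K * l.length ≤ 8 ^ L)
    (hs' : K * l.length * (Fintype.card P * Fintype.card Λ + 1) ^ (2 * L) ≤ 2 ^ M) :
    K * (univ.filter fun x : X => θ ≤ f (posI x)).card ≤ Fintype.card X ∨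
    K * ((@univ _ i2).filter fun ω : Smp P Λ M Q => f (negI ω) < θ).card ≤
      @Fintype.card (Smp P Λ M Q) i2 := by
  have e := comb2 hPR hCC hCT P Λ X L C M Q A K tr hL hM hQ hK hA htr I posI negI inp hraw l hl f
    hf θ hs hs'
  refine e.imp (fun e => e) (fun e => ?_)
  exact le_of_eq_of_le (congrArg (K * ·) (cardFU _ _ _ _ _ _ fun _ => Iff.rfl))
    (e.trans (le_of_eq (cardFt _ _)))

/-- the dichotomy for circuits that read the host constraints, as a statement -/
def S_HD : Prop := ∀ (U E Λ A : Type) [Fintype U] [Fintype E] [Fintype Λ] [Fintype A]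
  (G : CGraph U E Λ) (L M Q K : ℕ) (F : Local U Λ (2 * L)), (∀ S ρ, F.C S ρ → G.SatOn S ρ) →
  1 ≤ L → 1 ≤ M → 1 ≤ Q → 4 ≤ K → (2 * K + 1) * (8 * L * Q) ≤ Fintype.card A →
  ∀ (I : Type) (inst : Finset (E × A × A) → I) (inp : Set (I → ℝ)), HostInputs inst inp →
  ∀ l : List (I → ℝ), Prog inp l → ∀ f ∈ l, ∀ θ : ℝ, 2 * K * l.length ≤ 8 ^ L →
  K * l.length * (Fintype.card U * Fintype.card A * Fintype.card Λ + 1) ^ (2 * L) ≤ 2 ^ M →
  K * (univ.filter fun x : U → A => θ ≤ f (inst (hx G x))).card ≤ Fintype.card (U → A) ∨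
  K * (univ.filter fun ω : Smp (U × A) Λ M Q => f (inst (hT G (marked ω))) < θ).card ≤
      Fintype.card (Smp (U × A) Λ M Q)

theorem t_HD (hCO : S_CO) (hPR : S_PR) (hCC : S_CC) (hCT : S_CT) (hTR : S_TR) : S_HD := by
  intro U E Λ A _ _ _ _ G L M Q K F hF hL hM hQ hK hA I inst inp hinp l hl f hf θ hs hs'
  obtain ⟨C, hC⟩ := hCO U Λ A (2 * L) F
  have hA' : (2 * K + 1) * (4 * (2 * L) * Q) ≤ Fintype.card A :=
    le_trans (le_of_eq (by ring)) hA
  have htr := hTR U A
  have hraw : ∀ g ∈ inp, ∃ lam : C.T → ℝ,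
      Raw C M Q (2 * L) (fun x : U → A => univ.image fun u => (u, x u)) ∅ ∅ lam
        (fun x => g (inst (hx G x))) (fun ω => g (inst (hT G (marked ω)))) := by
    intro g hg
    rcases hinp g hg with ⟨c, hc⟩ | ⟨c, hc⟩
    · refine ⟨fun _ => c, ?_⟩
      have e1 : (fun x : U → A => g (inst (hx G x))) = fun _ => c := funext fun x => hc _
      have e2 : (fun ω : Smp (U × A) Λ M Q => g (inst (hT G (marked ω)))) = fun _ => c :=
        funext fun x => hc _
      rw [e1, e2]
      exact raw_const C M Q (2 * L) (fun x : U → A => univ.image fun u => (u, x u)) c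
    · obtain ⟨lam, h⟩ := raw_bit G L M Q F hF hL C hC c
      refine ⟨lam, ?_⟩
      have e1 : (fun x : U → A => g (inst (hx G x))) = fun x => if c ∈ hx G x then 1 else 0 :=
        funext fun x => by rw [hc]
      have e2 : (fun ω : Smp (U × A) Λ M Q => g (inst (hT G (marked ω)))) =
          fun ω => if c ∈ hT G (marked ω) then 1 else 0 :=
        funext fun x => by rw [hc]
      rw [e1, e2]
      exact h
  have key := comb2' hPR hCC hCT (U × A) Λ (U → A) L C M Q (Fintype.card A) K
    (fun x : U → A => univ.image fun u => (u, x u)) hL hM hQ hK hA' (fun α => by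
      have h := htr α
      rwa [card_filter_inst] at h) I
    (fun x => inst (hx G x)) (fun ω => inst (hT G (marked ω))) inp hraw l hl f hf θ
  rw [Fintype.card_prod U A] at key
  exact key _ hs hs'

theorem hd_all : S_HD := t_HD t_CO (t_PR (t_ST t_CC)) t_CC t_CT t_TR

end Pool.Agent.N631.FT
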