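import Pool.Agent.H630VC.Model

/-!
# Programs of monotone real gates with tests, and circuits with non-monotone gates (helper631)
-/

open scoped Classical
open Finset

namespace Pool.Agent.N631.FT

open H630VC (Prog Mono2)

/-- the results of the comparisons `θ i ≤ f i x` -/
noncomputable def bits {I : Type} {w : ℕ} (f : Fin w → I → ℝ) (θ : Fin w → ℝ) (x : I) :
    Fin w → Bool :=
  fun i => decide (θ i ≤ f i x)

/-- the number of the comparisons with a positive result -/
def rank {w : ℕ} (b : Fin w → Bool) : ℕ := (univ.filter fun i => b i = true).card

/-- `TProg inp l s m F`: a program with the answer `F` and the width `m`.  The list `l` contains the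
functions whose values are known at the start. The program gives an answer `b`; or it reads a
further value `f x`, where `f` is from `inp`; or it applies an arbitrary nondecreasing real function
`φ` to two known values; or it compares `w` known values with constants and goes on with a program
`F b` that depends on the vector `b` of the results. The number `s` bounds the number of the values
that are read or computed on a branch. The width of an answer is one; if for all `b` with `i` ones
the program `F b` has the width `r i ≥ 1` then the whole program has the width `r 0 + ... + r w`. So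
for programs with single comparisons (`w = 1`) the width is the number of leaves, and each step with
`w` parallel comparisons multiplies the width by at most `w + 1`. -/
inductive TProg {I : Type} (inp : Set (I → ℝ)) : List (I → ℝ) → ℕ → ℕ → (I → Bool) → Prop
  | answer {l : List (I → ℝ)} (b : Bool) : TProg inp l 0 1 (fun _ => b)
  | input {l : List (I → ℝ)} {f : I → ℝ} {s m : ℕ} {F : I → Bool} :
      f ∈ inp → TProg inp (f :: l) s m F → TProg inp l (s + 1) m F
  | gate {l : List (I → ℝ)} {φ : ℝ → ℝ → ℝ} {f g : I → ℝ} {s m : ℕ} {F : I → Bool} :
      Mono2 φ → f ∈ l → g ∈ l → TProg inp ((fun x => φ (f x) (g x)) :: l) s m F →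
      TProg inp l (s + 1) m F
  | tests {l : List (I → ℝ)} {w : ℕ} (f : Fin w → I → ℝ) (θ : Fin w → ℝ)
      (t : (Fin w → Bool) → ℕ) (s : ℕ) (r : ℕ → ℕ) (F : (Fin w → Bool) → I → Bool) :
      (∀ i, f i ∈ l) → (∀ i, 1 ≤ r i) → (∀ b, t b ≤ s) →
      (∀ b, TProg inp l (t b) (r (rank b)) (F b)) →
      TProg inp l s (∑ i ∈ range (w + 1), r i) (fun x => F (bits f θ x) x)

/-- `NProg inp l κ`: `l` is the list of the functions computed at the gates of a circuit (last gate
first) with input gates from `inp`, gates that apply an arbitrary nondecreasing real function to the
values of two earlier gates, and layers of non-monotone gates. A layer with `w` wires contains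
arbitrarily many gates, which compute arbitrary real functions `ψ` of the results of `w` comparisons
of the values of earlier gates with constants. The number `κ` is the product of the numbers
`w + 1` over all layers. So `κ ≤ 2 ^ t` for circuits with `t` NOT gates, and `κ = t + 1` if in
addition no path contains two NOT gates. -/
inductive NProg {I : Type} (inp : Set (I → ℝ)) : List (I → ℝ) → ℕ → Prop
  | nil : NProg inp [] 1
  | input {l : List (I → ℝ)} {κ : ℕ} {f : I → ℝ} : NProg inp l κ → f ∈ inp → NProg inp (f :: l) κ
  | gate {l : List (I → ℝ)} {κ : ℕ} {φ : ℝ → ℝ → ℝ} {f g : I → ℝ} :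
      NProg inp l κ → Mono2 φ → f ∈ l → g ∈ l → NProg inp ((fun x => φ (f x) (g x)) :: l) κ
  | layer {l : List (I → ℝ)} {κ w : ℕ} (f : Fin w → I → ℝ) (θ : Fin w → ℝ)
      (ψ : List ((Fin w → Bool) → ℝ)) :
      NProg inp l κ → (∀ i, f i ∈ l) →
      NProg inp (ψ.map (fun h x => h (bits f θ x)) ++ l) (κ * (w + 1))

end Pool.Agent.N631.FT
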