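import Pool.Agent.N631.FT.Final
import Pool.Agent.H589R3.DT.Two

/-!
# Programs with few tests and 2-to-1 games with one alphabet (helper631)
-/

open scoped Classical
open Finset

namespace Pool.Agent.N631.FT

open H589DT

/-- programs and maps of instances -/
theorem tprog_comp {I J : Type} (T : J → I) (inp : Set (I → ℝ)) (inp' : Set (J → ℝ))
    (h : ∀ f ∈ inp, (fun x => f (T x)) ∈ inp') {l : List (I → ℝ)} {s m : ℕ} {F : I → Bool}
    (ht : TProg inp l s m F) :
    TProg inp' (l.map fun f x => f (T x)) s m (fun x => F (T x)) := by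
  induction ht with
  | answer b => exact TProg.answer b
  | @input l f s m F hf _ ih => exact TProg.input (h f hf) ih
  | @gate l φ f g s m F hφ hf hg _ ih =>
    exact TProg.gate hφ (List.mem_map_of_mem hf) (List.mem_map_of_mem hg) ih
  | @tests l w f θ t s r F hf hr ht _ ih =>
    exact TProg.tests (fun i x => f i (T x)) θ t s r (fun b x => F b (T x))
      (fun i => List.mem_map_of_mem (hf i)) hr ht ih

theorem const_mem_t (U V : Type) (q : ℕ) (c : ℝ) : (fun _ => c) ∈ tInputs U V q :=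
  Or.inr ⟨c, rfl⟩

/-- the lower bound for randomised programs with few tests for 2-to-1 games -/
theorem main_two (δ : ℝ) (hδ : 0 < δ) :
    ∃ q C : ℕ, 1 ≤ q ∧ ∀ μ L N : ℕ, 1 ≤ μ → C * μ ≤ L → L ^ (100 * μ) ≤ N →
      ∀ (Ω : Type) [Fintype Ω] [Nonempty Ω] (S m : Ω → ℕ)
        (F : Ω → TGame (Fin N) (Fin N) q → Bool),
      (∀ ω, TProg (tInputs (Fin N) (Fin N) q) [] (S ω) (m ω) (F ω)) → (∀ ω, m ω ≤ μ) →
      (∀ I, TNo δ I → 3 * Fintype.card Ω ≤ 4 * (univ.filter fun ω => F ω I = true).card) →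
      (∀ I, TYes I → 3 * Fintype.card Ω ≤ 4 * (univ.filter fun ω => F ω I = false).card) →
      ∃ ω, 2 ^ L ≤ S ω := by
  obtain ⟨R, C, hR, H⟩ := main_T 2 le_rfl δ hδ
  refine ⟨2 * R, C, by omega, ?_⟩
  intro μ L N hμ hL hN Ω _ _ S m F hF hm h1 h2
  refine H μ L N hμ hL hN Ω S m (fun ω x => F ω (toT x)) (fun ω => ?_) hm
    (fun I hI => h1 _ (toT_no hR δ I hI)) (fun I hI => h2 _ (toT_yes I hI))
  exact tprog_comp toT _ _ (fun f hf => toT_inp f hf) (hF ω)

/-- the bound for programs gives the bound for circuits -/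
theorem circuits_of_programs_two {q N μ s : ℕ} {δ : ℝ}
    (h : ∀ (Ω : Type) [Fintype Ω] [Nonempty Ω] (S m : Ω → ℕ)
        (F : Ω → TGame (Fin N) (Fin N) q → Bool),
      (∀ ω, TProg (tInputs (Fin N) (Fin N) q) [] (S ω) (m ω) (F ω)) → (∀ ω, m ω ≤ μ) →
      (∀ I, TNo δ I → 3 * Fintype.card Ω ≤ 4 * (univ.filter fun ω => F ω I = true).card) →
      (∀ I, TYes I → 3 * Fintype.card Ω ≤ 4 * (univ.filter fun ω => F ω I = false).card) →
      ∃ ω, s ≤ S ω)
    (Ω : Type) [Fintype Ω] [Nonempty Ω] (l : Ω → List (TGame (Fin N) (Fin N) q → ℝ))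
    (κ : Ω → ℕ) (hl : ∀ ω, NProg (tInputs (Fin N) (Fin N) q) (l ω) (κ ω))
    (hκ : ∀ ω, 2 * κ ω ≤ μ) (hdec : TDecides δ l) : ∃ ω, s ≤ (l ω).length := by
  obtain ⟨f, hf, hI⟩ := hdec
  refine h Ω (fun ω => (l ω).length) (fun ω => κ ω * 2) (fun ω x => decide (1 ≤ f ω x))
    (fun ω => NProg.toTProg (const_mem_t _ _ _) (hl ω) (hf ω) 1)
    (fun ω => by rw [mul_comm]; exact hκ ω) ?_ ?_
  · intro I hI1
    have h1 := (hI I).1 hI1
    have e : (univ.filter fun ω => decide (1 ≤ f ω I) = true) =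
        univ.filter fun r => 1 ≤ f r I := by
      apply filter_congr
      intro ω _
      rw [decide_eq_true_eq]
    rw [e]
    exact h1
  · intro I hI1
    have h1 := (hI I).2 hI1
    have e : (univ.filter fun ω => decide (1 ≤ f ω I) = false) =
        univ.filter fun r => f r I < 1 := by
      apply filter_congr
      intro ω _
      rw [decide_eq_false_iff_not, not_le]
    rw [e]
    exact h1

end Pool.Agent.N631.FT
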